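import Pool.Agent.H393.EV.Orbit
import Pool.Agent.H393.EV.W1Chk
import Pool.Graph.R_seed8.H571R3.Red

/-! Strategies with a companion condition on the leaves: an absent vertex related to the leaf by
the exchange relation `E` (idea of helper73).  (helper393) -/

set_option autoImplicit false

namespace Pool.Agent.H393.EX

open Pool.Agent.H393.EV

/-- A winning strategy all whose leaves `v` have an absent companion `u`, `E u v`. -/
inductive W1E {V : Type} (E : V → V → Prop) (S : Set V → Prop) : Set V → Set V → Prop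
  | leaf (T N : Set V) (v : V) (hT : v ∉ T) (hN : v ∉ N) (u : V) (hu : u ∈ N)
      (huv : E u v)
      (h : ∀ X : Set V, T ⊆ X → Disjoint X N → (S (insert v X) ↔ S (X \ {v}))) : W1E E S T N
  | query (T N : Set V) (v : V) (hT : v ∉ T) (hN : v ∉ N) :
      W1E E S (insert v T) N → W1E E S T (insert v N) → W1E E S T N

/-- Search through a set. -/
theorem w1e_search {W : Type} [Finite W] (E : W → W → Prop) (f : Set W → Prop) (A : Set W)
    (T : Set W) : ∀ (m : ℕ) (N : Set W), (A \ (T ∪ N)).ncard = m →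
    (∀ w ∈ A, w ∉ T → w ∉ N → ∀ N', N ⊆ N' → N' ⊆ N ∪ (A \ T) → w ∉ N' →
      W1E E f (insert w T) N') →
    (W1E E f T (N ∪ (A \ T))) → W1E E f T N := by
  intro m
  induction m with
  | zero =>
    intro N hm _ h2
    have h0 : A \ (T ∪ N) = ∅ := by
      rwa [Set.ncard_eq_zero (Set.toFinite _)] at hm
    have : N ∪ (A \ T) = N := by
      apply Set.union_eq_left.mpr
      intro w hw
      by_contra hN
      have : w ∈ A \ (T ∪ N) := ⟨hw.1, fun h => h.elim hw.2 hN⟩
      rw [h0] at this
      exact this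
    rwa [this] at h2
  | succ m ih =>
    intro N hm h1 h2
    have hne : (A \ (T ∪ N)).Nonempty := by
      rw [← Set.ncard_pos (Set.toFinite _)]; omega
    obtain ⟨w, hwA, hw⟩ := hne
    have hwT : w ∉ T := fun h => hw (Or.inl h)
    have hwN : w ∉ N := fun h => hw (Or.inr h)
    refine W1E.query T N w hwT hwN (h1 w hwA hwT hwN N le_rfl Set.subset_union_left hwN) ?_
    apply ih (insert w N)
    · have e : A \ (T ∪ insert w N) = (A \ (T ∪ N)) \ {w} := by
        ext y; simp only [Set.mem_sdiff, Set.mem_union, Set.mem_insert_iff, Set.mem_singleton_iff]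
        tauto
      rw [e, Set.ncard_sdiff_singleton_of_mem (show w ∈ A \ (T ∪ N) from ⟨hwA, hw⟩), hm]; rfl
    · intro w' hw'A hw'T hw'N N' hN1 hN2 hw'
      apply h1 w' hw'A hw'T (fun h => hw'N (Or.inr h)) N' ((Set.subset_insert _ _).trans hN1) _ hw'
      intro y hy
      rcases hN2 hy with h | h
      · rcases h with rfl | h
        · exact Or.inr ⟨hwA, hwT⟩
        · exact Or.inl h
      · exact Or.inr h
    · have e : insert w N ∪ (A \ T) = N ∪ (A \ T) := by
        ext y; simp only [Set.mem_union, Set.mem_insert_iff, Set.mem_sdiff]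
        constructor
        · rintro ((rfl | h) | h)
          · exact Or.inr ⟨hwA, hwT⟩
          · exact Or.inl h
          · exact Or.inr h
        · rintro (h | h)
          · exact Or.inl (Or.inr h)
          · exact Or.inr h
      rwa [e]

section

variable {V : Type}

theorem check1_sound (E : V → V → Prop) (S : Set V → Prop) (ψ : ℕ → V) (ty : ℕ → ℕ) (z : Bool)
    (old : ℕ → Prop) (t : Tr) :
    ∀ (F : List ℕ) (R A : ℕ), check1 ty z t F R A = true →
    (∀ i j, R.testBit i = true → R.testBit j = true → ψ i = ψ j → i = j) →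
    (∀ i j, R.testBit i = true → R.testBit j = true → old (ty i) → ty i = ty j →
      E (ψ i) (ψ j)) →
    ∀ T N : Set V, (∀ i, R.testBit i = true → ψ i ∉ T ∧ ψ i ∉ N) →
    (∀ i, R.testBit i = true → (A.testBit (ty i) = true ∨ ¬ old (ty i)) → ∃ u ∈ N, E u (ψ i)) →
    (z = true → ∃ y u : V, y ∉ T ∧ y ∉ N ∧ (∀ i, R.testBit i = true → ψ i ≠ y) ∧ u ∈ N ∧
      E u y) →
    (∃ P : Set V → Prop, ∀ X, T ⊆ X → Disjoint X N →
      (S X ↔ P (X \ Im ψ R) ∧ Cov ψ F R X)) → W1E E S T N := by
  induction t with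
  | cone a =>
    intro F R A hc hinj htI T N hTN hA hz hS
    obtain ⟨P, hP⟩ := hS
    unfold check1 at hc
    rw [Bool.or_eq_true, Bool.and_eq_true, Bool.and_eq_true, Bool.and_eq_true] at hc
    rcases hc with ⟨hz1, hF⟩ | ⟨ha, hAa, hF⟩
    · obtain ⟨y, u, hyT, hyN, hyR, huN, huy⟩ := hz hz1
      rw [List.isEmpty_iff] at hF
      subst hF
      have hno : ∀ X, T ⊆ X → Disjoint X N → ¬ S X := by
        intro X h1 h2 h3
        obtain ⟨-, m, hm, -⟩ := (hP X h1 h2).1 h3
        cases hm
      refine W1E.leaf T N y hyT hyN u huN huy (fun X hTX hXN => ?_)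
      have h1 := hno (insert y X) (hTX.trans (Set.subset_insert _ _)) (by
        rw [Set.disjoint_left]
        rintro x (rfl | hx) hxN
        · exact hyN hxN
        · exact Set.disjoint_left.1 hXN hx hxN)
      have h2 := hno (X \ {y}) (fun x hx => ⟨hTX hx, fun h => hyT (h ▸ hx)⟩)
        (Set.disjoint_of_subset_left Set.sdiff_subset hXN)
      exact ⟨fun h => absurd h h1, fun h => absurd h h2⟩
    rw [List.all_eq_true] at hF
    obtain ⟨u, huN, huk⟩ := hA a ha (Or.inl hAa)
    refine W1E.leaf T N (ψ a) (hTN a ha).1 (hTN a ha).2 u huN huk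
      (fun X hTX hXN => ?_)
    have h1 := hP (insert (ψ a) X) (hTX.trans (Set.subset_insert _ _)) (by
      rw [Set.disjoint_left]
      rintro x (rfl | hx) hxN
      · exact (hTN a ha).2 hxN
      · exact Set.disjoint_left.1 hXN hx hxN)
    have h2 := hP (X \ {ψ a}) (fun x hx => ⟨hTX hx, fun h => (hTN a ha).1 (h ▸ hx)⟩)
      (Set.disjoint_of_subset_left Set.sdiff_subset hXN)
    have e : (insert (ψ a) X) \ Im ψ R = (X \ {ψ a}) \ Im ψ R := by
      ext x
      constructor
      · rintro ⟨hx | hx, hxI⟩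
        · exact absurd ⟨a, ha, hx.symm⟩ hxI
        · exact ⟨⟨hx, fun h => hxI ⟨a, ha, h.symm⟩⟩, hxI⟩
      · rintro ⟨⟨hx, -⟩, hxI⟩
        exact ⟨Or.inr hx, hxI⟩
    rw [h1, h2, e]
    refine and_congr_right fun _ => ?_
    constructor
    · rintro ⟨m, hm, h⟩
      exact ⟨m, hm, fun i hi hx => h i hi (Or.inr hx.1)⟩
    · rintro ⟨m, hm, h⟩
      refine ⟨m, hm, fun i hi hx => ?_⟩
      by_cases hia : i = a
      · rw [hia]; exact hF m hm
      · have hne : ψ i ≠ ψ a := fun h' => hia (hinj i a hi ha h')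
        exact h i hi ⟨hx.resolve_left hne, hne⟩
  | node v l r ihl ihr =>
    intro F R A hc hinj htI T N hTN hA hz hS
    obtain ⟨P, hP⟩ := hS
    unfold check1 at hc
    rw [Bool.and_eq_true, Bool.and_eq_true] at hc
    obtain ⟨hv, hl, hr⟩ := hc
    have hR' : ∀ i, (R ^^^ 2 ^ v).testBit i = true ↔ R.testBit i = true ∧ i ≠ v :=
      fun i => tb_xor R v i hv
    have hinj' : ∀ i j, (R ^^^ 2 ^ v).testBit i = true → (R ^^^ 2 ^ v).testBit j = true →
        ψ i = ψ j → i = j := fun i j hi hj => hinj i j ((hR' i).1 hi).1 ((hR' j).1 hj).1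
    have htI' : ∀ i j, (R ^^^ 2 ^ v).testBit i = true → (R ^^^ 2 ^ v).testBit j = true →
        old (ty i) → ty i = ty j → E (ψ i) (ψ j) :=
      fun i j hi hj => htI i j ((hR' i).1 hi).1 ((hR' j).1 hj).1
    have hne : ∀ i, (R ^^^ 2 ^ v).testBit i = true → ψ i ≠ ψ v := fun i hi h =>
      ((hR' i).1 hi).2 (hinj i v ((hR' i).1 hi).1 hv h)
    refine W1E.query T N (ψ v) (hTN v hv).1 (hTN v hv).2 ?_ ?_
    · refine ihl _ _ _ hl hinj' htI' _ _ ?_ (fun i hi => hA i ((hR' i).1 hi).1) ?_ ⟨fun Y => P (Y \ {ψ v}), fun X hTX hXN => ?_⟩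
      · intro i hi
        refine ⟨?_, (hTN i ((hR' i).1 hi).1).2⟩
        rintro (h | h)
        · exact hne i hi h
        · exact (hTN i ((hR' i).1 hi).1).1 h
      · intro hz1
        obtain ⟨y, u, hyT, hyN, hyR, huN, huy⟩ := hz hz1
        refine ⟨y, u, ?_, hyN, fun i hi => hyR i ((hR' i).1 hi).1, huN, huy⟩
        rintro (h | h)
        · exact hyR v hv h.symm
        · exact hyT h
      · have hvX : ψ v ∈ X := hTX (Or.inl rfl)
        rw [hP X ((Set.subset_insert _ _).trans hTX) hXN]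
        have e : (X \ Im ψ (R ^^^ 2 ^ v)) \ {ψ v} = X \ Im ψ R := by
          ext x
          constructor
          · rintro ⟨⟨hx, hxI⟩, hxv⟩
            refine ⟨hx, ?_⟩
            rintro ⟨i, hi, rfl⟩
            exact hxI ⟨i, (hR' i).2 ⟨hi, fun h => hxv (by rw [h]; rfl)⟩, rfl⟩
          · rintro ⟨hx, hxI⟩
            refine ⟨⟨hx, ?_⟩, fun h => hxI ⟨v, hv, h.symm⟩⟩
            rintro ⟨i, hi, rfl⟩
            exact hxI ⟨i, ((hR' i).1 hi).1, rfl⟩
        simp only [e]
        refine and_congr_right fun _ => ?_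
        constructor
        · rintro ⟨m, hm, h⟩
          exact ⟨m, List.mem_filter.2 ⟨hm, h v hv hvX⟩, fun i hi hx => h i ((hR' i).1 hi).1 hx⟩
        · rintro ⟨m, hm, h⟩
          obtain ⟨h1, h2⟩ := List.mem_filter.1 hm
          refine ⟨m, h1, fun i hi hx => ?_⟩
          by_cases hiv : i = v
          · rw [hiv]; exact h2
          · exact h i ((hR' i).2 ⟨hi, hiv⟩) hx
    · refine ihr _ _ _ hr hinj' htI' _ _ ?_ ?_ ?_ ⟨P, fun X hTX hXN => ?_⟩
      · intro i hi
        refine ⟨(hTN i ((hR' i).1 hi).1).1, ?_⟩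
        rintro (h | h)
        · exact hne i hi h
        · exact (hTN i ((hR' i).1 hi).1).2 h
      · intro i hi hk
        have hi' := ((hR' i).1 hi).1
        by_cases hold : old (ty i)
        · rcases hk with hk | hk
          · rw [Nat.testBit_or, Bool.or_eq_true, Nat.testBit_two_pow, decide_eq_true_eq] at hk
            rcases hk with hk | hk
            · obtain ⟨u, hu, h⟩ := hA i hi' (Or.inl hk)
              exact ⟨u, Or.inr hu, h⟩
            · exact ⟨ψ v, Or.inl rfl, htI v i hv hi' (by rw [hk]; exact hold) hk⟩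
          · exact absurd hold hk
        · obtain ⟨u, hu, h⟩ := hA i hi' (Or.inr hold)
          exact ⟨u, Or.inr hu, h⟩
      · intro hz1
        obtain ⟨y, u, hyT, hyN, hyR, huN, huy⟩ := hz hz1
        refine ⟨y, u, hyT, ?_, fun i hi => hyR i ((hR' i).1 hi).1, Or.inr huN, huy⟩
        rintro (h | h)
        · exact hyR v hv h.symm
        · exact hyN h
      · have hvX : ψ v ∉ X := fun h => Set.disjoint_left.1 hXN h (Or.inl rfl)
        rw [hP X hTX (Set.disjoint_of_subset_right (Set.subset_insert _ _) hXN)]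
        have e : X \ Im ψ (R ^^^ 2 ^ v) = X \ Im ψ R := by
          ext x
          constructor
          · rintro ⟨hx, hxI⟩
            refine ⟨hx, ?_⟩
            rintro ⟨i, hi, rfl⟩
            exact hxI ⟨i, (hR' i).2 ⟨hi, fun h => hvX (by rw [← h]; exact hx)⟩, rfl⟩
          · rintro ⟨hx, hxI⟩
            refine ⟨hx, ?_⟩
            rintro ⟨i, hi, rfl⟩
            exact hxI ⟨i, ((hR' i).1 hi).1, rfl⟩
        rw [e]
        refine and_congr_right fun _ => ?_
        constructor
        · rintro ⟨m, hm, h⟩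
          exact ⟨m, hm, fun i hi hx => h i ((hR' i).1 hi).1 hx⟩
        · rintro ⟨m, hm, h⟩
          refine ⟨m, hm, fun i hi hx => ?_⟩
          by_cases hiv : i = v
          · exact absurd (hiv ▸ hx) hvX
          · exact h i ((hR' i).2 ⟨hi, hiv⟩) hx
  | prune t ih =>
    intro F R A hc hinj htI T N hTN hA hz hS
    obtain ⟨P, hP⟩ := hS
    unfold check1 at hc
    refine ih _ _ _ hc hinj htI T N hTN hA hz ⟨P, fun X hTX hXN => ?_⟩
    rw [hP X hTX hXN, cov_pr]
    refine and_congr_right fun _ => ⟨Or.inr, ?_⟩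
    rintro (⟨m, hm, -⟩ | h)
    · cases hm
    · exact h

end

end Pool.Agent.H393.EX
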