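import Pool.Agent.H684.EV.Datum
import Pool.Agent.H393.EX.Red1

/-! Tied words: the orbit of a word under a product of two wreath products, and the datum of the
transitive function on it.  (helper393; tied words: idea of helper73) -/

set_option autoImplicit false

namespace Pool.Agent.H393.EX

open Pool.Agent.H684.EV
open Pool.Agent.H571R3 (Win win_tree)
open Pool.Agent.H128R2.Evas (DT)

section words

variable {V D1 D2 Q1 Q2 : Type} [Group D1] [Group D2] [Group Q1] [Group Q2]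
  (a1 : D1 →* Equiv.Perm V) (a2 : D2 →* Equiv.Perm V)

/-- The group. -/
abbrev Gm (D1 D2 Q1 Q2 : Type) [Group D1] [Group D2] [Group Q1] [Group Q2] : Type :=
  RegularWreathProduct D1 Q1 × RegularWreathProduct D2 Q2

/-- The coordinate which is moved to `c`. -/
def cb (γ : Gm D1 D2 Q1 Q2) (c : Q1 × Q2) : Q1 × Q2 := (γ.1.right⁻¹ * c.1, γ.2.right⁻¹ * c.2)

/-- The permutation of the letters at the coordinate `c`. -/
def lp (γ : Gm D1 D2 Q1 Q2) (c : Q1 × Q2) : Equiv.Perm V :=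
  a1 (γ.1.left c.1) * a2 (γ.2.left c.2)

/-- The moved word. -/
def mv (γ : Gm D1 D2 Q1 Q2) (w : Q1 × Q2 → Option V) (c : Q1 × Q2) : Option V :=
  (w (cb γ c)).map (lp a1 a2 γ c)

theorem mv_one (w : Q1 × Q2 → Option V) : mv a1 a2 (1 : Gm D1 D2 Q1 Q2) w = w := by
  funext c
  unfold mv cb lp
  have e1 : ((1 : Gm D1 D2 Q1 Q2).1.right⁻¹ * c.1, (1 : Gm D1 D2 Q1 Q2).2.right⁻¹ * c.2) = c := by
    show ((1 : Q1)⁻¹ * c.1, (1 : Q2)⁻¹ * c.2) = c
    rw [inv_one, inv_one, one_mul, one_mul]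
  rw [e1]
  have e2 : a1 ((1 : Gm D1 D2 Q1 Q2).1.left c.1) * a2 ((1 : Gm D1 D2 Q1 Q2).2.left c.2) = 1 := by
    show a1 1 * a2 1 = 1
    rw [map_one, map_one, one_mul]
  rw [e2]
  cases w c <;> rfl

theorem mv_mul (hcomm : ∀ g h, a1 g * a2 h = a2 h * a1 g) (γ δ : Gm D1 D2 Q1 Q2)
    (w : Q1 × Q2 → Option V) : mv a1 a2 (γ * δ) w = mv a1 a2 γ (mv a1 a2 δ w) := by
  funext c
  have e : cb (γ * δ) c = cb δ (cb γ c) := by
    unfold cb
    show ((γ.1.right * δ.1.right)⁻¹ * c.1, (γ.2.right * δ.2.right)⁻¹ * c.2) = _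
    rw [mul_inv_rev, mul_inv_rev, mul_assoc, mul_assoc]
  have e2 : lp a1 a2 (γ * δ) c = lp a1 a2 γ c * lp a1 a2 δ (cb γ c) := by
    unfold lp cb
    show a1 (γ.1.left c.1 * δ.1.left (γ.1.right⁻¹ * c.1)) *
      a2 (γ.2.left c.2 * δ.2.left (γ.2.right⁻¹ * c.2)) = _
    rw [map_mul, map_mul]
    have h := hcomm (δ.1.left (γ.1.right⁻¹ * c.1)) (γ.2.left c.2)
    simp only [mul_assoc]
    rw [← mul_assoc (a1 (δ.1.left (γ.1.right⁻¹ * c.1))), h]
    simp only [mul_assoc]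
  show (w (cb (γ * δ) c)).map (lp a1 a2 (γ * δ) c) =
    ((w (cb δ (cb γ c))).map (lp a1 a2 δ (cb γ c))).map (lp a1 a2 γ c)
  rw [e, e2, Option.map_map]
  rfl

variable (w0 : Q1 × Q2 → Option V)

/-- The tied words. -/
def Tw : Type := {w : Q1 × Q2 → Option V // ∃ γ : Gm D1 D2 Q1 Q2, mv a1 a2 γ w0 = w}

/-- The letters. -/
def pw (w : Tw a1 a2 w0) (c : Q1 × Q2) : Option V := w.1 c

/-- The action on the tied words. -/
@[reducible] def tact (hcomm : ∀ g h, a1 g * a2 h = a2 h * a1 g) :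
    MulAction (Gm D1 D2 Q1 Q2) (Tw a1 a2 w0) where
  smul γ w := ⟨mv a1 a2 γ w.1, by
    obtain ⟨δ, hδ⟩ := w.2
    exact ⟨γ * δ, by rw [mv_mul a1 a2 hcomm, hδ]⟩⟩
  one_smul w := Subtype.ext (mv_one a1 a2 w.1)
  mul_smul γ δ w := Subtype.ext (mv_mul a1 a2 hcomm γ δ w.1)

/-- The homomorphism to the permutations of the tied words. -/
def tth (hcomm : ∀ g h, a1 g * a2 h = a2 h * a1 g) :
    Gm D1 D2 Q1 Q2 →* Equiv.Perm (Tw a1 a2 w0) :=
  @MulAction.toPermHom (Gm D1 D2 Q1 Q2) (Tw a1 a2 w0) _ (tact a1 a2 w0 hcomm)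

theorem tth_val (hcomm : ∀ g h, a1 g * a2 h = a2 h * a1 g) (γ : Gm D1 D2 Q1 Q2)
    (w : Tw a1 a2 w0) : (tth a1 a2 w0 hcomm γ w).1 = mv a1 a2 γ w.1 := rfl

theorem ms_tth (hcomm : ∀ g h, a1 g * a2 h = a2 h * a1 g) (γ : Gm D1 D2 Q1 Q2)
    (X : Set (Tw a1 a2 w0)) (c : Q1 × Q2) :
    ms (pw a1 a2 w0) (tth a1 a2 w0 hcomm γ '' X) c =
      lp a1 a2 γ c '' ms (pw a1 a2 w0) X (cb γ c) := by
  ext v
  constructor
  · intro hb
    refine ⟨(lp a1 a2 γ c).symm v, ?_, Equiv.apply_symm_apply _ _⟩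
    intro w hw he
    refine hb _ ⟨w, hw, rfl⟩ ?_
    show mv a1 a2 γ w.1 c = some v
    unfold mv
    have he' : w.1 (cb γ c) = some ((lp a1 a2 γ c).symm v) := he
    rw [he', Option.map_some, Equiv.apply_symm_apply]
  · rintro ⟨u, hb, rfl⟩
    rintro _ ⟨w, hw, rfl⟩ he
    refine hb w hw ?_
    have he' : (w.1 (cb γ c)).map (lp a1 a2 γ c) = some (lp a1 a2 γ c u) := he
    show w.1 (cb γ c) = some u
    cases h : w.1 (cb γ c) with
    | none => rw [h] at he'; cases he'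
    | some x =>
      rw [h, Option.map_some] at he'
      rw [(lp a1 a2 γ c).injective (Option.some_injective _ he')]

theorem cb_surj (γ : Gm D1 D2 Q1 Q2) (c : Q1 × Q2) : ∃ d, cb γ d = c :=
  ⟨(γ.1.right * c.1, γ.2.right * c.2), by unfold cb; simp⟩

theorem cb_inj (γ : Gm D1 D2 Q1 Q2) (c d : Q1 × Q2) (h : cb γ c = cb γ d) : c = d := by
  unfold cb at h
  have h1 := mul_left_cancel (Prod.mk.inj h).1
  have h2 := mul_left_cancel (Prod.mk.inj h).2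
  exact Prod.ext h1 h2

theorem ff_tth (hcomm : ∀ g h, a1 g * a2 h = a2 h * a1 g) (S : Set V → Prop)
    (haS1 : ∀ g A, S (a1 g '' A) ↔ S A) (haS2 : ∀ g A, S (a2 g '' A) ↔ S A)
    (γ : Gm D1 D2 Q1 Q2) (X : Set (Tw a1 a2 w0)) :
    FF (pw a1 a2 w0) S (tth a1 a2 w0 hcomm γ '' X) ↔ FF (pw a1 a2 w0) S X := by
  have key : ∀ c A, S (lp a1 a2 γ c '' A) ↔ S A := by
    intro c A
    have e : lp a1 a2 γ c '' A = a1 (γ.1.left c.1) '' (a2 (γ.2.left c.2) '' A) := by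
      rw [← Set.image_comp]
      rfl
    rw [e, haS1, haS2]
  constructor
  · rintro ⟨c, hc⟩
    rw [ms_tth, key] at hc
    exact ⟨_, hc⟩
  · rintro ⟨c, hc⟩
    obtain ⟨d, hd⟩ := cb_surj γ c
    refine ⟨d, ?_⟩
    rw [ms_tth, key, hd]
    exact hc

/-- The datum. -/
theorem tw_datum [Finite V] [Finite D1] [Finite D2] [Finite Q1] [Finite Q2]
    (hcomm : ∀ g h, a1 g * a2 h = a2 h * a1 g) (S : Set V → Prop) (E : V → V → Prop)
    (haS1 : ∀ g A, S (a1 g '' A) ↔ S A) (haS2 : ∀ g A, S (a2 g '' A) ↔ S A)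
    (hE1 : ∀ g u v, E u v → E (a1 g u) (a1 g v)) (hE2 : ∀ g u v, E u v → E (a2 g u) (a2 g v))
    (hdown : ∀ A B : Set V, A ⊆ B → S B → S A) (hempty : S ∅)
    (hocc : ∀ v : V, ∃ γ : Gm D1 D2 Q1 Q2, mv a1 a2 γ w0 1 = some v)
    (hex0 : ∀ (c : Q1 × Q2) (u v : V), w0 c = some u → E u v →
      ∃ γ : Gm D1 D2 Q1 Q2, mv a1 a2 γ w0 c = some v ∧ ∀ d, d ≠ c → mv a1 a2 γ w0 d = w0 d)
    (a b : V) (hz0 : ∃ γ : Gm D1 D2 Q1 Q2, ∀ c, mv a1 a2 γ w0 c ≠ some a ∧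
      mv a1 a2 γ w0 c ≠ some b) (hS : ¬ S {a, b})
    (hw1 : W1E E S ∅ {a}) (hw2 : W1E E S {a} {b})
    {Λ1 Λ2 : Type} [Fintype Λ1] [Fintype Λ2] [Nonempty Λ1] [Nonempty Λ2] [Fintype Q1] [Fintype Q2]
    (ρ1 : D1 →* Equiv.Perm Λ1) (hρ1 : Function.Injective ρ1)
    (ρ2 : D2 →* Equiv.Perm Λ2) (hρ2 : Function.Injective ρ2)
    (q : ℕ) (hq : Nat.card (Tw a1 a2 w0) ≤ q) :
    Datum (Fintype.card Λ1 * Fintype.card Q1 + Fintype.card Λ2 * Fintype.card Q2) (q - 1) q := by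
  classical
  have hfin : Finite (Tw a1 a2 w0) := by unfold Tw; infer_instance
  have hfin2 : Fintype (Tw a1 a2 w0) := Fintype.ofFinite _
  have hex : ∀ (w : Tw a1 a2 w0) (c : Q1 × Q2) (u v : V), pw a1 a2 w0 w c = some u → E u v →
      ∃ z, pw a1 a2 w0 z c = some v ∧ ∀ d, d ≠ c → pw a1 a2 w0 z d = pw a1 a2 w0 w d := by
    rintro ⟨w, γ, rfl⟩ c u v hu huv
    have hu' : (w0 (cb γ c)).map (lp a1 a2 γ c) = some u := hu
    cases h : w0 (cb γ c) with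
    | none => rw [h] at hu'; cases hu'
    | some u0 =>
      rw [h, Option.map_some] at hu'
      have hu0 : u0 = (lp a1 a2 γ c).symm u := by
        rw [← Option.some_injective _ hu', Equiv.symm_apply_apply]
      have hE0 : E u0 ((lp a1 a2 γ c).symm v) := by
        rw [hu0]
        have e : ∀ x, (lp a1 a2 γ c).symm x =
            a2 (γ.2.left c.2)⁻¹ (a1 (γ.1.left c.1)⁻¹ x) := by
          intro x
          rw [Equiv.symm_apply_eq]
          show x = a1 (γ.1.left c.1) (a2 (γ.2.left c.2) (a2 (γ.2.left c.2)⁻¹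
            (a1 (γ.1.left c.1)⁻¹ x)))
          rw [Pool.Agent.H393.EV.app_inv, Pool.Agent.H393.EV.app_inv]
        rw [e, e]
        exact hE2 _ _ _ (hE1 _ _ _ huv)
      obtain ⟨γ0, h1, h2⟩ := hex0 _ _ _ h hE0
      refine ⟨⟨mv a1 a2 γ (mv a1 a2 γ0 w0), γ * γ0, mv_mul a1 a2 hcomm _ _ _⟩, ?_, ?_⟩
      · show (mv a1 a2 γ0 w0 (cb γ c)).map (lp a1 a2 γ c) = some v
        rw [h1, Option.map_some, Equiv.apply_symm_apply]
      · intro d hd
        show (mv a1 a2 γ0 w0 (cb γ d)).map (lp a1 a2 γ d) = (w0 (cb γ d)).map (lp a1 a2 γ d)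
        rw [h2 _ (fun h => hd (cb_inj γ d c h))]
  have hnu : ¬ S Set.univ := fun h => hS (hdown _ _ (Set.subset_univ _) h)
  have hred : Win (FF (pw a1 a2 w0) S) ∅ ∅ := by
    refine reduceE E (pw a1 a2 w0) S hex hdown a b ?_ hS hw1 hw2
    obtain ⟨γ, hγ⟩ := hz0
    exact ⟨⟨mv a1 a2 γ w0, γ, rfl⟩, hγ⟩
  obtain ⟨t, ht, hdep⟩ := win_tree (FF (pw a1 a2 w0) S) hred
  let act1 : MulAction D1 Λ1 := MulAction.compHom _ ρ1
  have hf1 : FaithfulSMul D1 Λ1 := ⟨fun h => hρ1 (Equiv.ext h)⟩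
  let act2 : MulAction D2 Λ2 := MulAction.compHom _ ρ2
  have hf2 : FaithfulSMul D2 Λ2 := ⟨fun h => hρ2 (Equiv.ext h)⟩
  have hBF : ∀ x : Tw a1 a2 w0 → Bool, decide (FF (pw a1 a2 w0) S {w | x w = true}) = true ↔
      FF (pw a1 a2 w0) S {w | x w = true} := fun x => decide_eq_true_iff
  have hW0 : Nonempty (Tw a1 a2 w0) := ⟨⟨w0, 1, mv_one a1 a2 w0⟩⟩
  refine ⟨Gm D1 D2 Q1 Q2, inferInstance, inferInstance, (Λ1 × Q1) ⊕ (Λ2 × Q2),
    inferInstance, (Equiv.Perm.sumCongrHom (Λ1 × Q1) (Λ2 × Q2)).comp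
      ((RegularWreathProduct.toPerm D1 Q1 Λ1).prodMap (RegularWreathProduct.toPerm D2 Q2 Λ2)),
    Tw a1 a2 w0, inferInstance, tth a1 a2 w0 hcomm,
    fun x => decide (FF (pw a1 a2 w0) S {w | x w = true}), t,
    ?_, ?_, hW0, ?_, ?_, ?_, ?_, ?_, ?_, ?_⟩
  · rw [MonoidHom.coe_comp]
    refine Equiv.Perm.sumCongrHom_injective.comp ?_
    rintro ⟨x, x'⟩ ⟨y, y'⟩ hxy
    have e := Prod.mk.inj (show (RegularWreathProduct.toPerm D1 Q1 Λ1 x,
      RegularWreathProduct.toPerm D2 Q2 Λ2 x') = (RegularWreathProduct.toPerm D1 Q1 Λ1 y,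
      RegularWreathProduct.toPerm D2 Q2 Λ2 y') from hxy)
    rw [RegularWreathProduct.toPermInj _ _ _ e.1, RegularWreathProduct.toPermInj _ _ _ e.2]
  · rw [Fintype.card_sum, Fintype.card_prod, Fintype.card_prod]
  · rintro ⟨v, γ, rfl⟩ ⟨w, δ, rfl⟩
    refine ⟨δ * γ⁻¹, Subtype.ext ?_⟩
    show mv a1 a2 (δ * γ⁻¹) (mv a1 a2 γ w0) = mv a1 a2 δ w0
    rw [← mv_mul a1 a2 hcomm, inv_mul_cancel_right]
  · intro x y hxy
    rw [Bool.le_iff_imp, hBF, hBF]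
    rintro ⟨c, hc⟩
    refine ⟨c, hdown _ _ (ms_anti _ ?_ c) hc⟩
    intro w hw
    have h3 := hxy w
    have hw' : x w = true := hw
    rw [hw'] at h3
    exact top_le_iff.mp h3
  · rw [← Bool.not_eq_true, hBF]
    rintro ⟨c, hc⟩
    refine hnu (hdown _ _ ?_ hc)
    intro v _ w hw
    exact absurd hw (by simp)
  · rw [hBF]
    refine ⟨1, hdown _ _ ?_ hempty⟩
    intro v hv
    obtain ⟨γ, hγ⟩ := hocc v
    exact absurd hγ (hv ⟨mv a1 a2 γ w0, γ, rfl⟩ rfl)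
  · intro γ x
    rw [Bool.eq_iff_iff, hBF, hBF]
    have himg : tth a1 a2 w0 hcomm γ '' {u | (x ∘ tth a1 a2 w0 hcomm γ) u = true} =
        {u | x u = true} := by
      ext u
      constructor
      · rintro ⟨v, hv, rfl⟩
        exact hv
      · intro hu
        refine ⟨(tth a1 a2 w0 hcomm γ).symm u, ?_, Equiv.apply_symm_apply _ u⟩
        show x (tth a1 a2 w0 hcomm γ ((tth a1 a2 w0 hcomm γ).symm u)) = true
        rw [Equiv.apply_symm_apply]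
        exact hu
    rw [← himg]
    exact (ff_tth a1 a2 w0 hcomm S haS1 haS2 γ _).symm
  · intro x
    rw [Bool.eq_iff_iff, hBF]
    exact ht x
  · rw [Nat.card_eq_fintype_card] at hq
    have hpos : 1 ≤ Fintype.card (Tw a1 a2 w0) := Fintype.card_pos
    have h1 : t.depth ≤ Fintype.card (Tw a1 a2 w0) - 1 := by omega
    calc t.depth * q ≤ (Fintype.card (Tw a1 a2 w0) - 1) * q := Nat.mul_le_mul_right _ h1
      _ ≤ (q - 1) * Fintype.card (Tw a1 a2 w0) := by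
        obtain ⟨n, hn⟩ : ∃ n, Fintype.card (Tw a1 a2 w0) = n + 1 := ⟨_, (Nat.sub_add_cancel hpos).symm⟩
        obtain ⟨r, hr⟩ : ∃ r, q = r + 1 := ⟨q - 1, by omega⟩
        rw [hn, hr, Nat.add_sub_cancel, Nat.add_sub_cancel]
        rw [hn, hr] at hq
        nlinarith

end words

end Pool.Agent.H393.EX
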