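import Pool.Agent.H393.EX.Orb1

/-! The orbit of a nonevasive complex, with the leaf condition: the two strategies.  (helper393) -/

set_option autoImplicit false

namespace Pool.Agent.H393.EX

open Pool.Agent.H393.EV

section

variable {V G : Type} [Group G] (a : G →* Equiv.Perm V) (ψ : ℕ → V) (M : List ℕ)
  (n : ℕ) (lev : V → ℕ) (E : V → V → Prop)

theorem orbit_w1 [Finite V] (e : ℕ) (he : 1 ≤ e) (hlev : ∀ g v, lev (a g v) = lev v)
    (hM : ∀ m ∈ M, ∀ i, m.testBit i = true → i < n)
    (hinj : ∀ i j, i < n → j < n → ψ i = ψ j → i = j)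
    (hle : ∀ v, lev v ≤ e)
    (hbase : ∀ v, lev v = 0 → v ∈ Ch ψ n)
    (hK : ∀ g : G, ∀ m ∈ M, ∃ m' ∈ M, ∀ i, m.testBit i = true → lev (ψ i) = 0 →
      ∃ i', m'.testBit i' = true ∧ a g (ψ i) = ψ i')
    (hH : ∀ (g : G) (i i' : ℕ), i < n → i' < n → lev (ψ i) ≠ 0 → a g (ψ i) = ψ i' →
      ∀ m ∈ M, m.testBit i = true → ∃ m' ∈ M, ∀ l, m.testBit l = true → lev (ψ l) ≤ lev (ψ i) →
      ∃ l', m'.testBit l' = true ∧ a g (ψ l) = ψ l')
    (hone : ∀ m ∈ M, ∀ i i', m.testBit i = true → m.testBit i' = true →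
      lev (ψ i) = lev (ψ i') → lev (ψ i) ≠ 0 → i = i')
    (hEa : ∀ g u v, E u v → E (a g u) (a g v))
    (ty : ℕ → ℕ) (old : ℕ → Prop) (hold : ∀ i < n, old (ty i) → lev (ψ i) = 0)
    (hnew : ∀ i < n, ¬ old (ty i) → lev (ψ i) ≠ 0)
    (hEold : ∀ i < n, ∀ j < n, old (ty i) → ty i = ty j → E (ψ i) (ψ j))
    (hEnew : ∀ i < n, ¬ old (ty i) → ∃ v, lev v = lev (ψ i) ∧ v ∉ Ch ψ n ∧ E v (ψ i))
    (u : ℕ → ℕ) (R : ℕ → ℕ) (tB : ℕ → Tr) (tF : Tr)
    (hu : ∀ j, 1 ≤ j → j ≤ e → u j < n ∧ lev (ψ (u j)) = j ∧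
      ∀ v, lev v = j → ∃ g : G, a g (ψ (u j)) = v)
    (hR : ∀ j, 1 ≤ j → j ≤ e → ∀ i, (R j).testBit i = true ↔ i < n ∧ lev (ψ i) < j)
    (AA : ℕ → ℕ) (hAA : ∀ j, 1 ≤ j → j ≤ e → ∀ k, (AA j).testBit k = true → ¬ old k)
    (hB : ∀ j, 1 ≤ j → j ≤ e →
      check1 ty true (tB j) (M.filter fun m => m.testBit (u j)) (R j) (AA j) = true)
    (A : ℕ) (hA : ∀ k, A.testBit k = true → ¬ old k)
    (hF : check1 ty false tF M (2 ^ n - 1) A = true)
    (va vb yb : V) (hva : lev va = e) (hvb : lev vb = e) (hvaC : va ∉ Ch ψ n)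
    (hvaE : E va (ψ (u e))) (hyb : lev yb = e) (hyba : yb ≠ va) (hybb : yb ≠ vb)
    (hvbE : E vb yb) :
    W1E E (Sorb a ψ M) ∅ {va} ∧ W1E E (Sorb a ψ M) {va} {vb} := by
  obtain ⟨hen, hel, het⟩ := hu e he le_rfl
  have hyC : ψ (u e) ∈ Ch ψ n := ⟨u e, hen, rfl⟩
  constructor
  · -- the final stage
    have hfin : W1E E (Sorb a ψ M) ∅ {v | v ∉ Ch ψ n} := by
      refine check1_sound E _ ψ ty false old tF M (2 ^ n - 1) A hF ?_ ?_ _ _ ?_ ?_ ?_
        ⟨fun _ => True, fun X _ hXN => ?_⟩
      · intro i j hi hj h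
        rw [Nat.testBit_two_pow_sub_one, decide_eq_true_eq] at hi hj
        exact hinj i j hi hj h
      · intro i j hi hj
        rw [Nat.testBit_two_pow_sub_one, decide_eq_true_eq] at hi hj
        exact hEold i hi j hj
      · intro i hi
        rw [Nat.testBit_two_pow_sub_one, decide_eq_true_eq] at hi
        exact ⟨Set.notMem_empty _, fun h => h ⟨i, hi, rfl⟩⟩
      · intro i hi hk
        rw [Nat.testBit_two_pow_sub_one, decide_eq_true_eq] at hi
        have hk' : ¬ old (ty i) := by
          rcases hk with hk | hk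
          · exact hA _ hk
          · exact hk
        obtain ⟨v, h2, h3, h4⟩ := hEnew i hi hk'
        exact ⟨v, h3, h4⟩
      · intro h
        exact Bool.noConfusion h
      · have hX : ∀ x ∈ X, x ∈ Ch ψ n := by
          intro x hx
          by_contra h
          exact Set.disjoint_left.1 hXN hx h
        rw [true_and]
        constructor
        · rintro ⟨g, m, hm, h⟩
          by_cases hl : ∃ x ∈ X, lev x ≠ 0
          · -- an element of maximal level
            obtain ⟨x, hx, hmax⟩ : ∃ x ∈ X, ∀ y ∈ X, lev y ≤ lev x := by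
              obtain ⟨x1, hx1, -⟩ := hl
              obtain ⟨x, hx, h2⟩ := Set.exists_max_image X lev (Set.toFinite X) ⟨x1, hx1⟩
              exact ⟨x, hx, h2⟩
            have hlx : lev x ≠ 0 := by
              obtain ⟨x1, hx1, h1⟩ := hl
              have := hmax x1 hx1
              omega
            obtain ⟨i0, hi0, hxe⟩ := h x hx
            have hl0 : lev (ψ i0) = lev x := by rw [hxe, hlev]
            obtain ⟨i1, hi1, hxc⟩ := hX x hx
            obtain ⟨m', hm', h'⟩ := hH g i0 i1 (hM m hm i0 hi0) hi1 (by omega)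
              (hxe.symm.trans hxc.symm) m hm hi0
            refine ⟨m', hm', fun i hi hiX => ?_⟩
            rw [Nat.testBit_two_pow_sub_one, decide_eq_true_eq] at hi
            obtain ⟨i2, hi2, hie⟩ := h _ hiX
            have hl2 : lev (ψ i2) ≤ lev (ψ i0) := by
              have h3 := hmax _ hiX
              rw [hie, hlev] at h3
              omega
            obtain ⟨i3, hi3, hie3⟩ := h' i2 hi2 hl2
            rw [hinj i i3 hi (hM m' hm' i3 hi3) (hie.trans hie3)]
            exact hi3
          · push Not at hl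
            obtain ⟨m', hm', h'⟩ := hK g m hm
            refine ⟨m', hm', fun i hi hiX => ?_⟩
            rw [Nat.testBit_two_pow_sub_one, decide_eq_true_eq] at hi
            obtain ⟨i2, hi2, hie⟩ := h _ hiX
            have hl2 : lev (ψ i2) = 0 := by
              have := hl _ hiX
              rwa [hie, hlev] at this
            obtain ⟨i3, hi3, hie3⟩ := h' i2 hi2 hl2
            rw [hinj i i3 hi (hM m' hm' i3 hi3) (hie.trans hie3)]
            exact hi3
        · rintro ⟨m, hm, h⟩
          refine ⟨1, m, hm, fun v hv => ?_⟩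
          obtain ⟨i, hi, rfl⟩ := hX v hv
          refine ⟨i, h i ?_ hv, ?_⟩
          · rw [Nat.testBit_two_pow_sub_one, decide_eq_true_eq]; exact hi
          · rw [map_one]; rfl
    -- the search stages
    have main : ∀ d : ℕ, ∀ j : ℕ, j + d = e →
        W1E E (Sorb a ψ M) ∅ {v | (j < lev v ∧ v ∉ Ch ψ n) ∨ v = va} →
        W1E E (Sorb a ψ M) ∅ {va} := by
      intro d
      induction d with
      | zero =>
        intro j hj h
        have hset : {v : V | (j < lev v ∧ v ∉ Ch ψ n) ∨ v = va} = {va} := by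
          ext v
          have := hle v
          constructor
          · rintro (⟨h1, -⟩ | h)
            · omega
            · exact h
          · intro h; exact Or.inr h
        rwa [hset] at h
      | succ d ih =>
        intro j hj h
        refine ih (j + 1) (by omega) ?_
        have hj1 : 1 ≤ j + 1 := by omega
        have hje : j + 1 ≤ e := by omega
        obtain ⟨hun, hul, hut⟩ := hu (j + 1) hj1 hje
        refine w1e_search E (Sorb a ψ M) {v | lev v = j + 1 ∧ v ∉ Ch ψ n} ∅ _ _ rfl ?_ ?_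
        · intro w hwA _ hwN N' hN1 hN2 hwN'
          obtain ⟨hwl, hwC⟩ := hwA
          have hN'C : ∀ v ∈ N', j + 1 ≤ lev v ∧ v ∉ Ch ψ n := by
            intro v hv
            rcases hN2 hv with (h1 | h1) | h1
            · exact ⟨h1.1.le, h1.2⟩
            · rw [h1, hva]; exact ⟨hje, hvaC⟩
            · exact ⟨h1.1.1.ge, h1.1.2⟩
          refine branch1 a ψ M n lev E hlev hM hinj hH hone hEa ty old hold hnew hEold hEnew
            (j + 1) (u (j + 1)) (R (j + 1)) (AA (j + 1)) (tB (j + 1)) hj1 hun hul hut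
            (hR (j + 1) hj1 hje) (hAA (j + 1) hj1 hje) (hB (j + 1) hj1 hje)
            w N' hwl hwC (fun v h1 h2 => hN1 (Or.inl ⟨h1, h2⟩)) (fun v hv => (hN'C v hv).1)
            (ψ (u e)) va (fun h => hwC (h ▸ hyC)) (fun h => (hN'C _ h).2 hyC) (by omega)
            (hN1 (Or.inr rfl)) hvaE
        · have hset : {v : V | (j + 1 < lev v ∧ v ∉ Ch ψ n) ∨ v = va} ∪
              ({v | lev v = j + 1 ∧ v ∉ Ch ψ n} \ ∅) =
              {v | (j < lev v ∧ v ∉ Ch ψ n) ∨ v = va} := by
            ext v
            constructor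
            · rintro ((⟨h2, h3⟩ | h2) | ⟨⟨h1, h2⟩, -⟩)
              · exact Or.inl ⟨by omega, h3⟩
              · exact Or.inr h2
              · exact Or.inl ⟨by omega, h2⟩
            · rintro (⟨h2, h3⟩ | h2)
              · by_cases h4 : lev v = j + 1
                · exact Or.inr ⟨⟨h4, h3⟩, fun h => h⟩
                · exact Or.inl (Or.inl ⟨by omega, h3⟩)
              · exact Or.inl (Or.inr h2)
          rw [hset]
          exact h
    refine main e 0 (by omega) ?_
    have hset : {v : V | (0 < lev v ∧ v ∉ Ch ψ n) ∨ v = va} = {v | v ∉ Ch ψ n} := by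
      ext v
      constructor
      · rintro (⟨-, h⟩ | h)
        · exact h
        · rw [h]; exact hvaC
      · intro h
        refine Or.inl ⟨?_, h⟩
        by_contra h0
        exact h (hbase v (by omega))
    rw [hset]
    exact hfin
  · have h := branch1 a ψ M n lev E hlev hM hinj hH hone hEa ty old hold hnew hEold hEnew e (u e)
      (R e) (AA e) (tB e) he hen hel het (hR e he le_rfl) (hAA e he le_rfl) (hB e he le_rfl)
      va {vb} hva hvaC (fun v h1 _ => absurd h1 (by have := hle v; omega))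
      (fun v hv => by rw [show v = vb from hv, hvb])
      yb vb hyba hybb (by omega) rfl hvbE
    have hset : (insert va ∅ : Set V) = {va} := by
      ext v; simp
    rw [hset] at h
    exact h

end

end Pool.Agent.H393.EX
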