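import Pool.Agent.H393.EX.Grp2
import Pool.Agent.H393.EX.Main1

/-! The complex on the thirteen points and the two orbits of sixty new vertices.  (helper393) -/

set_option autoImplicit false

namespace Pool.Agent.H393.EX

open Pool.Agent.H571R3 Pool.Agent.R282.EV Pool.Agent.H684.EV Pool.Agent.H393.EV

/-- The generators of the stabilisers. -/
def sgen : Fin 2 → GG := ![h1 * h2, h1]

/-- The stabilisers of the new vertices. -/
def St (j : Fin 2) : Subgroup GG where
  carrier := {g | g = 1 ∨ g = sgen j}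
  mul_mem' := by
    have hs : ∀ j, sgen j * sgen j = 1 := by
      have e5 : h1 * h2 * (h1 * h2) = 1 := by
        rw [← mul_assoc, h12c, mul_assoc h2, h11, mul_one, h22]
      intro j
      fin_cases j
      · exact e5
      · exact h11
    rintro a b (rfl | rfl) (rfl | rfl)
    · left; rw [one_mul]
    · right; rw [one_mul]
    · right; rw [mul_one]
    · left; exact hs j
  one_mem' := Or.inl rfl
  inv_mem' := by
    have hs : ∀ j, sgen j * sgen j = 1 := by
      have e5 : h1 * h2 * (h1 * h2) = 1 := by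
        rw [← mul_assoc, h12c, mul_assoc h2, h11, mul_one, h22]
      intro j
      fin_cases j
      · exact e5
      · exact h11
    rintro a (rfl | rfl)
    · left; exact inv_one
    · right; exact inv_eq_of_mul_eq_one_right (hs j)

theorem mem_St (j : Fin 2) (g : GG) : g ∈ St j ↔ g = 1 ∨ g = sgen j := Iff.rfl

theorem St_le (j : Fin 2) : St j ≤ H4 := by
  intro g hg
  rcases (mem_St j g).1 hg with rfl | rfl
  · exact one_mem _
  · fin_cases j
    · exact mul_mem h1_H4 h2_H4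
    · exact h1_H4

theorem h12_St : h1 * h2 ∈ St 0 := Or.inr rfl

theorem h1_St : h1 ∈ St 1 := Or.inr rfl

theorem h1_nSt : h1 ∉ St 0 := by
  intro h
  rcases (mem_St 0 h1).1 h with h | h
  · exact h1_ne h
  · have h' : h1 * 1 = h1 * h2 := by rw [mul_one]; exact h
    exact h2_ne (mul_left_cancel h').symm

theorem h2_nSt : h2 ∉ St 1 := by
  intro h
  rcases (mem_St 1 h2).1 h with h | h
  · exact h2_ne h
  · exact h12_ne h.symm

/-- The vertices. -/
abbrev VV : Type := Fin 13 ⊕ (Σ j : Fin 2, GG ⧸ St j)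

/-- The action. -/
noncomputable def aV : GG →* Equiv.Perm VV := MonoidHom.mk'
  (fun g => Equiv.sumCongr (act g) (Equiv.sigmaCongrRight fun _ => MulAction.toPerm g)) (by
    intro g h
    apply Equiv.ext
    rintro (x | ⟨j, x⟩)
    · show (Sum.inl (act (g * h) x) : VV) = Sum.inl (act g (act h x))
      rw [map_mul]
      rfl
    · show (Sum.inr ⟨j, (g * h) • x⟩ : VV) = Sum.inr ⟨j, g • h • x⟩
      rw [mul_smul])

theorem aV_inl (g : GG) (x : Fin 13) : aV g (Sum.inl x) = Sum.inl (act g x) := rfl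

theorem aV_inr (g : GG) (j : Fin 2) (x : GG ⧸ St j) :
    aV g (Sum.inr ⟨j, x⟩) = Sum.inr ⟨j, g • x⟩ := rfl

theorem aV_mk (g : GG) (j : Fin 2) (h : GG) :
    aV g (Sum.inr ⟨j, (h : GG ⧸ St j)⟩) = Sum.inr ⟨j, ((g * h : GG) : GG ⧸ St j)⟩ := rfl

/-- The translation of a new vertex of the chart. -/
def hh (i : ℕ) : GG := if hx i = 0 then 1 else if hx i = 1 then h1 else h2

theorem hh_mem (i : ℕ) : hh i ∈ H4 := by
  unfold hh
  split_ifs
  · exact one_mem _
  · exact h1_H4
  · exact h2_H4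

/-- The chart. -/
noncomputable def psi (i : ℕ) : VV :=
  if h : i < 13 then Sum.inl ⟨i, h⟩ else Sum.inr ⟨jf i, (hh i : GG ⧸ St (jf i))⟩

theorem psi_lt (i : ℕ) (h : i < 13) : psi i = Sum.inl ⟨i, h⟩ := dif_pos h

theorem psi_ge (i : ℕ) (h : ¬ i < 13) : psi i = Sum.inr ⟨jf i, (hh i : GG ⧸ St (jf i))⟩ :=
  dif_neg h

/-- The levels. -/
def lev : VV → ℕ := Sum.elim (fun _ => 0) (fun x => x.1.val + 1)

theorem lev_lt (i : ℕ) (h : i < 13) : lev (psi i) = 0 := by rw [psi_lt i h]; rfl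

theorem lev_ge (i : ℕ) (h : ¬ i < 13) : lev (psi i) = (jf i).val + 1 := by rw [psi_ge i h]; rfl

theorem sig_inj {j j' : Fin 2} {h h' : GG}
    (H : (Sum.inr ⟨j, (h : GG ⧸ St j)⟩ : VV) = Sum.inr ⟨j', (h' : GG ⧸ St j')⟩) :
    j = j' ∧ h⁻¹ * h' ∈ St j := by
  have H1 := Sum.inr_injective H
  obtain rfl : j = j' := congrArg Sigma.fst H1
  have H2 : (h : GG ⧸ St j) = (h' : GG ⧸ St j) := eq_of_heq (Sigma.mk.inj_iff.1 H1).2
  exact ⟨rfl, QuotientGroup.eq.1 H2⟩

theorem sig_eq {j j' : Fin 2} {h h' : GG} (e : j = j') (H : h⁻¹ * h' ∈ St j) :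
    (Sum.inr ⟨j, (h : GG ⧸ St j)⟩ : VV) = Sum.inr ⟨j', (h' : GG ⧸ St j')⟩ := by
  subst e
  rw [QuotientGroup.eq.2 H]

theorem psi13 : psi 13 = Sum.inr ⟨0, ((1 : GG) : GG ⧸ St 0)⟩ := psi_ge 13 (by norm_num)

theorem psi14 : psi 14 = Sum.inr ⟨0, ((h1 : GG) : GG ⧸ St 0)⟩ := psi_ge 14 (by norm_num)

theorem psi15 : psi 15 = Sum.inr ⟨1, ((1 : GG) : GG ⧸ St 1)⟩ := psi_ge 15 (by norm_num)

theorem psi16 : psi 16 = Sum.inr ⟨1, ((h2 : GG) : GG ⧸ St 1)⟩ := psi_ge 16 (by norm_num)

theorem i1314 : psi 13 ≠ psi 14 := by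
  rw [psi13, psi14]
  intro h
  obtain ⟨-, h⟩ := sig_inj h
  rw [inv_one, one_mul] at h
  exact h1_nSt h

theorem i1516 : psi 15 ≠ psi 16 := by
  rw [psi15, psi16]
  intro h
  obtain ⟨-, h⟩ := sig_inj h
  rw [inv_one, one_mul] at h
  exact h2_nSt h

theorem psi_inj (i i' : ℕ) (hi : i < 17) (hi' : i' < 17) (h : psi i = psi i') : i = i' := by
  by_cases h1 : i < 13
  · by_cases h2 : i' < 13
    · rw [psi_lt i h1, psi_lt i' h2] at h
      exact congrArg Fin.val (Sum.inl_injective h)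
    · rw [psi_lt i h1, psi_ge i' h2] at h
      cases h
  · by_cases h2 : i' < 13
    · rw [psi_ge i h1, psi_lt i' h2] at h
      cases h
    · have hj : jf i = jf i' := by
        rw [psi_ge i h1, psi_ge i' h2] at h
        exact (sig_inj h).1
      have h3 : i = 13 ∨ i = 14 ∨ i = 15 ∨ i = 16 := by omega
      have h4 : i' = 13 ∨ i' = 14 ∨ i' = 15 ∨ i' = 16 := by omega
      rcases h3 with rfl | rfl | rfl | rfl <;> rcases h4 with rfl | rfl | rfl | rfl
      · rfl
      · exact absurd h i1314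
      · exact absurd hj (by decide)
      · exact absurd hj (by decide)
      · exact absurd h.symm i1314
      · rfl
      · exact absurd hj (by decide)
      · exact absurd hj (by decide)
      · exact absurd hj (by decide)
      · exact absurd hj (by decide)
      · rfl
      · exact absurd h i1516
      · exact absurd hj (by decide)
      · exact absurd hj (by decide)
      · exact absurd h.symm i1516
      · rfl

theorem T1 : ∀ i : Fin 13, tau1 i.val = (gh1 i).val := by decide +kernel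

theorem T2 : ∀ i : Fin 13, tau2 i.val = (gh2 i).val := by decide +kernel

theorem aV_h1 (i : ℕ) (hi : i < 17) : aV h1 (psi i) = psi (tau1 i) := by
  by_cases h1' : i < 13
  · have h2 := T1 ⟨i, h1'⟩
    simp only at h2
    have h3 : tau1 i < 13 := by rw [h2]; exact (gh1 ⟨i, h1'⟩).isLt
    rw [psi_lt i h1', psi_lt _ h3, aV_inl, h1_act]
    congr 1
    exact Fin.ext h2.symm
  · have h3 : i = 13 ∨ i = 14 ∨ i = 15 ∨ i = 16 := by omega
    rcases h3 with rfl | rfl | rfl | rfl
    · show aV h1 (psi 13) = psi 14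
      rw [psi13, psi14, aV_mk, mul_one]
    · show aV h1 (psi 14) = psi 13
      rw [psi13, psi14, aV_mk, h11]
    · show aV h1 (psi 15) = psi 15
      rw [psi15, aV_mk]
      refine sig_eq rfl ?_
      rw [mul_one, mul_one]
      exact inv_mem h1_St
    · show aV h1 (psi 16) = psi 16
      rw [psi16, aV_mk]
      refine sig_eq rfl ?_
      rw [mul_inv_rev, mul_assoc]
      have e : h2⁻¹ * (h1⁻¹ * h2) = h1 := by
        rw [inv_eq_of_mul_eq_one_right h11, inv_eq_of_mul_eq_one_right h22, h12c, ← mul_assoc,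
          h22, one_mul]
      rw [e]
      exact h1_St

theorem aV_h2 (i : ℕ) (hi : i < 17) : aV h2 (psi i) = psi (tau2 i) := by
  by_cases h1' : i < 13
  · have h2' := T2 ⟨i, h1'⟩
    simp only at h2'
    have h3 : tau2 i < 13 := by rw [h2']; exact (gh2 ⟨i, h1'⟩).isLt
    rw [psi_lt i h1', psi_lt _ h3, aV_inl, h2_act]
    congr 1
    exact Fin.ext h2'.symm
  · have h3 : i = 13 ∨ i = 14 ∨ i = 15 ∨ i = 16 := by omega
    rcases h3 with rfl | rfl | rfl | rfl
    · show aV h2 (psi 13) = psi 14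
      rw [psi13, psi14, aV_mk]
      refine sig_eq rfl ?_
      rw [mul_one, inv_eq_of_mul_eq_one_right h22, ← h12c]
      exact h12_St
    · show aV h2 (psi 14) = psi 13
      rw [psi13, psi14, aV_mk]
      refine sig_eq rfl ?_
      rw [mul_one, ← h12c]
      exact inv_mem h12_St
    · show aV h2 (psi 15) = psi 16
      rw [psi15, psi16, aV_mk, mul_one]
    · show aV h2 (psi 16) = psi 15
      rw [psi15, psi16, aV_mk, h22]

theorem bit_lt (m : ℕ) (hm : m ∈ MM) (i : ℕ) (hi : m.testBit i = true) : i < 17 := by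
  by_contra h
  have h2 : m < 2 ^ i := (F1 m hm).trans_le (Nat.pow_le_pow_right (by norm_num) (by omega))
  rw [Nat.testBit_lt_two_pow h2] at hi
  exact Bool.noConfusion hi

/-- A symmetry of the chart. -/
def Gd (g : GG) : Prop := ∀ m ∈ MM, ∃ m' ∈ MM, ∀ i, m.testBit i = true →
  ∃ i', m'.testBit i' = true ∧ aV g (psi i) = psi i'

theorem gd_one : Gd 1 := fun m hm => ⟨m, hm, fun i hi => ⟨i, hi, by rw [map_one]; rfl⟩⟩

theorem gd_h1 : Gd h1 := by
  intro m hm
  obtain ⟨m', hm', h⟩ := F4a m hm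
  refine ⟨m', hm', fun i hi => ?_⟩
  have h1' := bit_lt m hm i hi
  exact ⟨tau1 i, h i h1' hi, aV_h1 i h1'⟩

theorem gd_h2 : Gd h2 := by
  intro m hm
  obtain ⟨m', hm', h⟩ := F4b m hm
  refine ⟨m', hm', fun i hi => ?_⟩
  have h1' := bit_lt m hm i hi
  exact ⟨tau2 i, h i h1' hi, aV_h2 i h1'⟩

theorem gd_mul {g h : GG} (hg : Gd g) (hh : Gd h) : Gd (g * h) := by
  intro m hm
  obtain ⟨m', hm', h'⟩ := hh m hm
  obtain ⟨m'', hm'', h''⟩ := hg m' hm'
  refine ⟨m'', hm'', fun i hi => ?_⟩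
  obtain ⟨i', hi', e⟩ := h' i hi
  obtain ⟨i'', hi'', e'⟩ := h'' i' hi'
  refine ⟨i'', hi'', ?_⟩
  rw [map_mul, Equiv.Perm.mul_apply, e, e']

theorem gd_H4 (g : GG) (hg : g ∈ H4) : Gd g := by
  rcases (mem_H4 g).1 hg with rfl | rfl | rfl | rfl
  · exact gd_one
  · exact gd_h1
  · exact gd_h2
  · exact gd_mul gd_h1 gd_h2

theorem lev_aV (g : GG) (v : VV) : lev (aV g v) = lev v := by
  rcases v with x | ⟨j, x⟩ <;> rfl

theorem sb_bits (m m' mask : ℕ) (h : (m &&& mask) &&& m' = m &&& mask) (i : ℕ)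
    (hi : m.testBit i = true) (hk : mask.testBit i = true) : m'.testBit i = true := by
  have h2 : ((m &&& mask) &&& m').testBit i = true := by
    rw [h, Nat.testBit_land, hi, hk]; rfl
  rw [Nat.testBit_land] at h2
  exact (Bool.and_eq_true_iff.1 h2).2

theorem not_ch (j : Fin 2) (g : GG) (hg : g ∉ H4) :
    (Sum.inr ⟨j, (g : GG ⧸ St j)⟩ : VV) ∉ Ch psi 17 := by
  rintro ⟨i, hi, he⟩
  by_cases h1 : i < 13
  · rw [psi_lt i h1] at he
    cases he
  · rw [psi_ge i h1] at he
    obtain ⟨h2, h3⟩ := sig_inj he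
    have h4 := St_le _ h3
    apply hg
    have h5 := mul_mem (hh_mem i) h4
    rwa [mul_inv_cancel_left] at h5

/-- The exchange relation. -/
def EE (u v : VV) : Prop :=
  (∃ x y : Fin 13, u = Sum.inl x ∧ v = Sum.inl y ∧ blk13 x = blk13 y) ∨
    ∃ s, u = Sum.inr s ∧ v = aV xs (Sum.inr s)

theorem EE_aV (g : GG) (u v : VV) (h : EE u v) : EE (aV g u) (aV g v) := by
  rcases h with ⟨x, y, rfl, rfl, h⟩ | ⟨⟨j, s⟩, rfl, rfl⟩
  · exact Or.inl ⟨act g x, act g y, rfl, rfl, by rw [act_blk, act_blk, h]⟩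
  · refine Or.inr ⟨⟨j, g • s⟩, rfl, ?_⟩
    rw [← aV_inr, ← Equiv.Perm.mul_apply, ← Equiv.Perm.mul_apply, ← map_mul, ← map_mul, xs_comm]

/-- The first letter. -/
noncomputable def va : VV := Sum.inr ⟨1, ((xs : GG) : GG ⧸ St 1)⟩

/-- The second letter. -/
noncomputable def vb : VV := Sum.inr ⟨1, ((x5 : GG) : GG ⧸ St 1)⟩

/-- The third letter. -/
noncomputable def yb : VV := Sum.inr ⟨1, ((xs * x5 : GG) : GG ⧸ St 1)⟩

theorem va_ne_vb : va ≠ vb := by
  intro h
  obtain ⟨-, h2⟩ := sig_inj h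
  exact xsx5_not (St_le _ h2)

theorem pair_not : ¬ Sorb aV psi MM {va, vb} := by
  rintro ⟨g, m, hm, h⟩
  obtain ⟨k, hk, he⟩ := h va (Or.inl rfl)
  obtain ⟨k', hk', he'⟩ := h vb (Or.inr rfl)
  have h1 : lev (psi k) = 2 := by
    rw [← lev_aV g, ← he]; rfl
  have h2 : lev (psi k') = 2 := by
    rw [← lev_aV g, ← he']; rfl
  have h13 : ¬ k < 13 := fun h => by rw [lev_lt k h] at h1; omega
  have h13' : ¬ k' < 13 := fun h => by rw [lev_lt k' h] at h2; omega
  rw [lev_ge k h13] at h1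
  rw [lev_ge k' h13'] at h2
  have h3 : k = k' := F5 m hm k k' (bit_lt m hm k hk) (bit_lt m hm k' hk') (by omega) (by omega)
    (Fin.ext (by omega)) hk hk'
  exact va_ne_vb ((he.trans (by rw [h3])).trans he'.symm)

theorem tyc_blk : ∀ i < 13, ∀ i' < 13, tyc i = tyc i' →
    blk13 ⟨i % 13, Nat.mod_lt _ (by norm_num)⟩ = blk13 ⟨i' % 13, Nat.mod_lt _ (by norm_num)⟩ := by
  decide +kernel

theorem tyc_lt : ∀ i < 17, (tyc i < 3 ↔ i < 13) := by decide +kernel

theorem w1s : W1E EE (Sorb aV psi MM) ∅ {va} ∧ W1E EE (Sorb aV psi MM) {va} {vb} := by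
  refine orbit_w1 aV psi MM 17 lev EE 2 (by norm_num) lev_aV bit_lt psi_inj ?_ ?_ ?_ ?_ ?_
    EE_aV tyc (fun k => k < 3) ?_ ?_ ?_ ?_ (fun j => uu (j - 1))
    (fun j => 2 ^ (uu (j - 1)) - 1) (fun j => sLink (j - 1)) sFin ?_ ?_
    (fun j => aLink (j - 1)) ?_ ?_ 24 ?_ check1_fin va vb yb rfl rfl (not_ch _ _ xs_not)
    ?_ rfl ?_ ?_ ?_
  · rintro (x | ⟨j, x⟩)
    · exact Nat.zero_le _
    · have := j.isLt
      show j.val + 1 ≤ 2
      omega
  · rintro (x | ⟨j, x⟩) h
    · exact ⟨x.val, by omega, psi_lt x.val x.isLt⟩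
    · exact absurd h (Nat.succ_ne_zero _)
  · -- invariance of the base
    intro g m hm
    obtain ⟨f, hf, h1⟩ := F2 m hm
    let s : Finset (Fin 13) := Finset.univ.filter fun i => m.testBit i.val = true
    have hs : s ∈ KK := by
      refine ⟨f, hf, fun i hi => ?_⟩
      refine sb_bits m f 8191 h1 i.val (Finset.mem_filter.1 hi).2 ?_
      have : ∀ i : Fin 13, (8191 : ℕ).testBit i.val = true := by decide
      exact this i
    obtain ⟨f', hf', h2⟩ := (act_inv g s).2 hs
    obtain ⟨m', hm', h3⟩ := F3 f' hf'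
    refine ⟨m', hm', fun i hi hl => ?_⟩
    have hi13 : i < 13 := by
      by_contra h
      rw [lev_ge i h] at hl
      omega
    refine ⟨(act g ⟨i, hi13⟩).val, ?_, ?_⟩
    · have h4 := h2 (act g ⟨i, hi13⟩) (Finset.mem_map.2 ⟨⟨i, hi13⟩,
        Finset.mem_filter.2 ⟨Finset.mem_univ _, hi⟩, rfl⟩)
      have h5 : (f' &&& m').testBit (act g ⟨i, hi13⟩).val = true := by rw [h3]; exact h4
      rw [Nat.testBit_land] at h5
      exact (Bool.and_eq_true_iff.1 h5).2
    · rw [psi_lt i hi13, psi_lt _ (act g ⟨i, hi13⟩).isLt, aV_inl]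
  · -- the translations inside the chart
    intro g i i' hi hi' hl he
    have hgood : Gd g := by
      have h1 : ¬ i < 13 := fun h => hl (lev_lt i h)
      have h2 : ¬ i' < 13 := by
        intro h
        have h3 := congrArg lev he
        rw [lev_aV, lev_lt i' h] at h3
        exact hl h3
      rw [psi_ge i h1, psi_ge i' h2, aV_mk] at he
      obtain ⟨-, h3⟩ := sig_inj he.symm
      have h4 := St_le _ h3
      have h5 : g ∈ H4 := by
        have h6 := mul_mem (mul_mem (hh_mem i') h4) (inv_mem (hh_mem i))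
        have h7 : hh i' * ((hh i')⁻¹ * (g * hh i)) * (hh i)⁻¹ = g := by group
        rwa [h7] at h6
      exact gd_H4 g h5
    intro m hm _
    obtain ⟨m', hm', h⟩ := hgood m hm
    exact ⟨m', hm', fun l hl' _ => h l hl'⟩
  · -- one vertex of every level
    intro m hm i i' hi hi' hl hl0
    have h1 : ¬ i < 13 := fun h => hl0 (lev_lt i h)
    have h2 : ¬ i' < 13 := fun h => hl0 (hl.trans (lev_lt i' h))
    rw [lev_ge i h1, lev_ge i' h2] at hl
    exact F5 m hm i i' (bit_lt m hm i hi) (bit_lt m hm i' hi') (by omega) (by omega)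
      (Fin.ext (by omega)) hi hi'
  · intro i hi ho
    exact lev_lt i ((tyc_lt i hi).1 ho)
  · intro i hi ho
    have h13 : ¬ i < 13 := fun h => ho ((tyc_lt i hi).2 h)
    rw [lev_ge i h13]
    exact Nat.succ_ne_zero _
  · intro i hi j hj ho he
    have h1 := (tyc_lt i hi).1 ho
    have ho' : tyc j < 3 := he ▸ ho
    have h2 := (tyc_lt j hj).1 ho'
    refine Or.inl ⟨⟨i, h1⟩, ⟨j, h2⟩, psi_lt i h1, psi_lt j h2, ?_⟩
    have h := tyc_blk i h1 j h2 he
    simp only [Nat.mod_eq_of_lt h1, Nat.mod_eq_of_lt h2] at h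
    exact h
  · intro i hi ho
    have h13 : ¬ i < 13 := fun h => ho ((tyc_lt i hi).2 h)
    refine ⟨Sum.inr ⟨jf i, ((xs * hh i : GG) : GG ⧸ St (jf i))⟩, ?_, ?_, ?_⟩
    · rw [lev_ge i h13]; rfl
    · refine not_ch _ _ (fun h => xs_not ?_)
      have h5 := mul_mem h (inv_mem (hh_mem i))
      rwa [mul_inv_cancel_right] at h5
    · refine Or.inr ⟨_, rfl, ?_⟩
      rw [aV_mk, ← mul_assoc, xss, one_mul, psi_ge i h13]
  · intro j hj1 hjE
    obtain ⟨h1, h2, h3, h4, h5⟩ := F9 (j - 1) (by omega)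
    have h6 : ¬ uu (j - 1) < 13 := by omega
    refine ⟨h2, ?_, ?_⟩
    · show lev (psi (uu (j - 1))) = j
      rw [lev_ge _ h6, h3]; omega
    · rintro (x | ⟨j', x⟩) hv
      · have : (0 : ℕ) = j := hv
        omega
      · obtain ⟨h, rfl⟩ := QuotientGroup.mk_surjective x
        have hv' : j'.val + 1 = j := hv
        refine ⟨h, ?_⟩
        show aV h (psi (uu (j - 1))) = _
        rw [psi_ge _ h6, aV_mk]
        refine sig_eq (Fin.ext (by omega)) ?_
        have h7 : hh (uu (j - 1)) = 1 := by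
          unfold hh
          rw [h4]
          rfl
        rw [h7, mul_one, inv_mul_cancel]
        exact one_mem _
  · intro j hj1 hjE i
    obtain ⟨h1, h2, h3, h4, h5⟩ := F9 (j - 1) (by omega)
    show (2 ^ (uu (j - 1)) - 1).testBit i = true ↔ _
    rw [Nat.testBit_two_pow_sub_one, decide_eq_true_eq]
    constructor
    · intro hi
      have hiN : i < 17 := hi.trans h2
      refine ⟨hiN, ?_⟩
      rcases (h5 i hiN).2 hi with h | h
      · rw [lev_lt i h]; omega
      · by_cases h13 : i < 13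
        · rw [lev_lt i h13]; omega
        · rw [lev_ge i h13]; omega
    · rintro ⟨hiN, hl⟩
      apply (h5 i hiN).1
      by_cases h13 : i < 13
      · exact Or.inl h13
      · right
        rw [lev_ge i h13] at hl
        omega
  · intro j hj1 hjE k hk hk3
    have key : ∀ j < 2, ∀ k < 3, (aLink j).testBit k = false := by decide
    rw [key (j - 1) (by omega) k hk3] at hk
    exact Bool.noConfusion hk
  · intro j hj1 hjE
    exact FB1 (j - 1) (by omega)
  · intro k hk hk3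
    have key : ∀ k < 3, (24 : ℕ).testBit k = false := by decide
    rw [key k hk3] at hk
    exact Bool.noConfusion hk
  · -- the exchange of the first letter
    refine Or.inr ⟨_, rfl, ?_⟩
    show psi 15 = _
    rw [aV_mk, xss, psi15]
  · intro h
    obtain ⟨-, h2⟩ := sig_inj h
    have h3 := St_le _ h2
    rw [mul_inv_rev, mul_assoc, inv_mul_cancel, mul_one] at h3
    exact x5_not (inv_mem_iff.1 h3)
  · intro h
    obtain ⟨-, h2⟩ := sig_inj h
    have h3 := St_le _ h2
    rw [mul_inv_rev, mul_assoc, show xs⁻¹ = xs from inv_eq_of_mul_eq_one_right xss, ← xs_comm,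
      inv_mul_cancel_left] at h3
    exact xs_not h3
  · refine Or.inr ⟨_, rfl, ?_⟩
    rw [aV_mk]
    rfl

end Pool.Agent.H393.EX
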