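import Pool.Agent.H393.EV.Grp
import Pool.Agent.H393.EV.W1Chk

/-! A nonevasive extension of the suspension of the `A5`-acyclic complex by two orbits of cones
(found by a beam search): tables and certificates.  Bits 0-12: the complex `KK` of the library,
bits 13, 14, 15, 16: the new vertices.  (helper393) -/

set_option autoImplicit false

namespace Pool.Agent.H393.EX

open Pool.Agent.H571R3 Pool.Agent.H393.EV

/-- The facets of the nonevasive complex. -/
def MM : List ℕ :=
  [10292, 10307, 10313, 10316, 10322, 10324, 10753, 10764, 11273, 11281, 11284, 12323, 12325,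
    12340, 12355, 12361, 12364, 12370, 12372, 12801, 12818, 13332, 18467, 18469, 18474, 18497,
    18508, 18949, 18954, 18956, 18961, 18962, 19466, 20522, 20545, 20562, 20997, 21002, 21004,
    21009, 21010, 21513, 21514, 21521, 32908, 34947, 34961, 36906, 36920, 36993, 37125, 37126,
    37129, 37144, 37894, 37908, 40995, 40997, 41091, 41092, 41993, 42001, 43011, 43025, 43064,
    43273, 43282, 43288, 45090, 45104, 45330, 46082, 46096, 49187, 49189, 49288, 49297, 50185,
    50193, 51203, 51217, 51461, 51462, 51474, 52230, 53282, 53296, 53522, 54274, 54288, 65810,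
    67636, 67640, 67715, 67718, 67729, 67736, 67841, 68614, 68618, 69893, 69897, 73763, 73765,
    73993, 74000, 74761, 74769, 75812, 75816, 75916, 76804, 76808, 77829, 77833, 77955, 77958,
    77964, 78854, 81955, 81957, 82178, 82181, 82953, 82961, 84004, 84008, 84108, 84996, 85000,
    86021, 86025, 86072, 86156, 86161, 86168]

/-- The orbit of a new vertex. -/
def jf (i : ℕ) : Fin 2 := ([0, 0, 1, 1] : List (Fin 2)).getD (i - 13) 0

/-- The translation of a new vertex: `0` for `1`, `1` for `h1`, `2` for `h2`. -/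
def hx (i : ℕ) : ℕ := ([0, 1, 0, 2] : List ℕ).getD (i - 13) 0

/-- The action of `h1`. -/
def tau1 (i : ℕ) : ℕ := ([0, 4, 3, 2, 1, 10, 9, 7, 8, 6, 5, 11, 12, 14, 13, 15, 16] : List ℕ).getD i 0

/-- The action of `h2`. -/
def tau2 (i : ℕ) : ℕ := ([0, 2, 1, 4, 3, 5, 9, 8, 7, 6, 10, 12, 11, 14, 13, 16, 15] : List ℕ).getD i 0

/-- The first vertex of an orbit. -/
def uu (j : ℕ) : ℕ := ([13, 15] : List ℕ).getD j 0

/-- The type of a vertex of the chart. -/
def tyc (i : ℕ) : ℕ := if i < 5 then 0 else if i < 11 then 1 else if i < 13 then 2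
  else 3 + (jf i).val

theorem F1 : ∀ m ∈ MM, m < 2 ^ 17 := by decide +kernel

theorem F2 : ∀ m ∈ MM, ∃ f ∈ facets, (m &&& 8191) &&& f = m &&& 8191 := by decide +kernel

theorem F3 : ∀ f ∈ facets, ∃ m ∈ MM, f &&& m = f := by decide +kernel

theorem F4a : ∀ m ∈ MM, ∃ m' ∈ MM, ∀ i < 17, m.testBit i = true →
    m'.testBit (tau1 i) = true := by
  decide +kernel

theorem F4b : ∀ m ∈ MM, ∃ m' ∈ MM, ∀ i < 17, m.testBit i = true →
    m'.testBit (tau2 i) = true := by
  decide +kernel

theorem F5' : ∀ m ∈ MM, ∀ i i' : Fin 4, jf (13 + i.val) = jf (13 + i'.val) →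
    m.testBit (13 + i.val) = true → m.testBit (13 + i'.val) = true → i = i' := by
  decide +kernel

theorem F5 : ∀ m ∈ MM, ∀ i i', i < 17 → i' < 17 → 13 ≤ i → 13 ≤ i' → jf i = jf i' →
    m.testBit i = true → m.testBit i' = true → i = i' := by
  intro m hm i i' h1 h1' h2 h2' h3 h4 h5
  have e1 : 13 + (i - 13) = i := by omega
  have e2 : 13 + (i' - 13) = i' := by omega
  have h := F5' m hm ⟨i - 13, by omega⟩ ⟨i' - 13, by omega⟩
  simp only [e1, e2] at h
  have := congrArg Fin.val (h h3 h4 h5)
  simp only at this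
  omega

theorem F7' : ∀ i i' : Fin 4, jf (13 + i.val) = jf (13 + i'.val) →
    hx (13 + i.val) = hx (13 + i'.val) → i = i' := by
  decide +kernel

theorem F7 : ∀ i i', i < 17 → i' < 17 → 13 ≤ i → 13 ≤ i' → jf i = jf i' →
    hx i = hx i' → i = i' := by
  intro i i' h1 h1' h2 h2' h3 h4
  have e1 : 13 + (i - 13) = i := by omega
  have e2 : 13 + (i' - 13) = i' := by omega
  have h := F7' ⟨i - 13, by omega⟩ ⟨i' - 13, by omega⟩
  simp only [e1, e2] at h
  have := congrArg Fin.val (h h3 h4)
  simp only at this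
  omega

theorem F9 : ∀ j < 2, 13 ≤ uu j ∧ uu j < 17 ∧ (jf (uu j)).val = j ∧ hx (uu j) = 0 ∧
    ∀ i < 17, (i < 13 ∨ (jf i).val < j) ↔ i < uu j := by
  decide +kernel

/-- Certificate for the whole complex. -/
def sFin : Tr :=
  (.node 6 (.node 14 (.node 3 (.node 0 (.cone 13) (.cone 2)) (.node 2 (.node 12 (.cone 0) (.cone
    11)) (.prune (.node 4 (.cone 1) (.node 11 (.cone 0) (.prune (.cone 12))))))) (.prune (.cone
    13))) (.prune (.node 9 (.node 13 (.node 3 (.node 0 (.cone 5) (.cone 2)) (.node 1 (.cone 4)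
    (.node 2 (.node 12 (.cone 0) (.cone 11)) (.prune (.node 4 (.node 11 (.cone 0) (.cone 12))
    (.prune (.cone 0))))))) (.prune (.cone 14))) (.prune (.node 11 (.node 8 (.node 16 (.node 1
    (.cone 5) (.cone 0)) (.prune (.cone 15))) (.prune (.node 7 (.node 14 (.cone 16) (.prune
    (.node 13 (.cone 16) (.node 3 (.cone 16) (.prune (.node 2 (.cone 1) (.prune (.cone
    0)))))))) (.prune (.node 3 (.node 2 (.cone 16) (.prune (.node 15 (.cone 13) (.prune (.node
    0 (.cone 10) (.prune (.node 4 (.cone 5) (.prune (.node 13 (.cone 16) (.prune (.node 5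
    (.cone 14) (.prune (.cone 10))))))))))))) (.prune (.node 10 (.node 15 (.cone 1) (.node 0
    (.cone 4) (.prune (.cone 2)))) (.prune (.node 13 (.node 16 (.cone 2) (.prune (.node 1
    (.cone 15) (.prune (.cone 4))))) (.prune (.node 5 (.node 15 (.cone 4) (.prune (.node 4
    (.cone 2) (.prune (.cone 14))))) (.prune (.node 4 (.node 14 (.cone 15) (.node 1 (.cone 15)
    (.prune (.node 2 (.cone 16) (.prune (.cone 0)))))) (.prune (.node 15 (.cone 14) (.node 16
    (.node 0 (.cone 1) (.prune (.cone 2))) (.prune (.cone 14)))))))))))))))))) (.prune (.node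
    12 (.node 7 (.node 15 (.node 1 (.cone 5) (.cone 0)) (.prune (.cone 16))) (.prune (.node 8
    (.node 14 (.cone 15) (.prune (.node 13 (.cone 15) (.node 16 (.node 1 (.cone 5) (.cone 0))
    (.prune (.cone 15)))))) (.prune (.node 4 (.node 1 (.cone 15) (.prune (.node 3 (.cone 5)
    (.prune (.node 16 (.cone 14) (.prune (.node 0 (.cone 10) (.prune (.node 14 (.cone 15)
    (.prune (.node 5 (.cone 13) (.prune (.cone 10))))))))))))) (.prune (.node 10 (.node 0
    (.cone 3) (.prune (.cone 1))) (.prune (.node 5 (.node 2 (.cone 0) (.prune (.node 16 (.cone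
    3) (.prune (.cone 1))))) (.prune (.node 14 (.node 15 (.cone 1) (.prune (.node 1 (.cone 3)
    (.prune (.cone 16))))) (.prune (.node 3 (.node 2 (.cone 13) (.prune (.node 1 (.cone 15)
    (.prune (.cone 0))))) (.prune (.node 15 (.node 13 (.cone 1) (.prune (.cone 2))) (.prune
    (.cone 13))))))))))))))))) (.prune (.node 1 (.node 7 (.cone 13) (.prune (.node 4 (.cone 8)
    (.prune (.node 2 (.node 8 (.cone 14) (.prune (.cone 10))) (.node 8 (.node 16 (.cone 14)
    (.prune (.cone 15))) (.prune (.node 3 (.node 15 (.cone 5) (.prune (.node 16 (.cone 10)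
    (.prune (.cone 14))))) (.prune (.node 16 (.node 10 (.cone 13) (.prune (.cone 0))) (.prune
    (.cone 15)))))))))))) (.prune (.node 4 (.node 8 (.node 16 (.cone 13) (.prune (.cone 15)))
    (.prune (.node 7 (.cone 14) (.prune (.node 3 (.cone 5) (.node 2 (.node 15 (.cone 10)
    (.prune (.node 16 (.cone 5) (.prune (.cone 13))))) (.prune (.node 13 (.node 16 (.cone 0)
    (.prune (.cone 15))) (.prune (.cone 14)))))))))) (.prune (.node 2 (.node 8 (.cone 0)
    (.prune (.node 10 (.node 13 (.cone 16) (.prune (.cone 14))) (.prune (.node 3 (.cone 7)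
    (.prune (.node 14 (.node 7 (.cone 16) (.prune (.cone 0))) (.prune (.cone 13)))))))))
    (.prune (.node 3 (.node 8 (.cone 0) (.prune (.node 7 (.node 13 (.cone 16) (.prune (.cone
    14))) (.prune (.node 14 (.node 15 (.cone 0) (.prune (.cone 16))) (.prune (.cone 13)))))))
    (.prune (.cone 0)))))))))))))))))

/-- Certificate for the link of the new vertex 13. -/
def sL1 : Tr :=
  (.prune (.node 7 (.node 0 (.node 2 (.cone 1) (.cone 1)) (.prune (.cone 2))) (.prune (.node 9
    (.node 3 (.node 0 (.cone 1) (.cone 2)) (.node 2 (.node 12 (.cone 0) (.cone 11)) (.prune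
    (.node 11 (.cone 0) (.prune (.cone 12)))))) (.prune (.node 8 (.node 12 (.node 0 (.cone 1)
    (.cone 1)) (.prune (.cone 11))) (.prune (.node 10 (.node 1 (.node 0 (.cone 2) (.cone 2))
    (.prune (.node 3 (.cone 0) (.prune (.cone 4))))) (.prune (.node 3 (.node 12 (.cone 6)
    (.prune (.cone 11))) (.prune (.node 5 (.node 11 (.cone 2) (.prune (.cone 12))) (.prune
    (.node 2 (.node 11 (.cone 4) (.prune (.cone 12))) (.prune (.node 12 (.cone 1) (.prune
    (.cone 11))))))))))))))))))

/-- Certificate for the link of the new vertex 15. -/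
def sL2 : Tr :=
  (.node 2 (.node 4 (.node 5 (.cone 0) (.cone 10)) (.prune (.node 3 (.node 5 (.cone 0) (.cone 7))
    (.prune (.node 5 (.cone 0) (.prune (.node 7 (.cone 13) (.prune (.node 13 (.cone 0) (.prune
    (.node 0 (.cone 8) (.prune (.cone 1))))))))))))) (.prune (.node 7 (.node 3 (.cone 14)
    (.prune (.cone 0))) (.prune (.node 3 (.node 1 (.cone 5) (.prune (.node 14 (.cone 0) (.prune
    (.node 10 (.cone 0) (.prune (.node 0 (.cone 8) (.prune (.cone 4))))))))) (.prune (.node 10
    (.node 11 (.cone 1) (.prune (.node 1 (.cone 12) (.prune (.cone 4))))) (.prune (.node 5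
    (.node 11 (.cone 4) (.prune (.node 0 (.cone 1) (.prune (.cone 12))))) (.prune (.node 12
    (.cone 8) (.prune (.cone 11)))))))))))))

/-- The certificates of the links. -/
def sLink (j : ℕ) : Tr := ([sL1, sL2] : List Tr).getD j (.cone 0)

theorem check1_fin : check1 tyc false sFin MM (2 ^ 17 - 1) 24 = true := by decide +kernel

/-- The types with an absent vertex in the stage `j`. -/
def aLink (j : ℕ) : ℕ := (2 ^ j - 1) * 8

theorem FB1 : ∀ j < 2, check1 tyc true (sLink j) (MM.filter fun m => m.testBit (uu j))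
    (2 ^ (uu j) - 1) (aLink j) = true := by
  decide +kernel

end Pool.Agent.H393.EX
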