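import Pool.Agent.H393.EX.Asm2
import Pool.Agent.H393.EX.Wr

/-! The tied words of the complex: a nonevasive function of `43200` variables with a transitive
group which acts faithfully on `16` points.  (helper393) -/

set_option autoImplicit false

namespace Pool.Agent.H393.EX

open Pool.Agent.H571R3 Pool.Agent.R282.EV Pool.Agent.H684.EV Pool.Agent.H393.EV

/-- The group of the first shifts. -/
abbrev C2 : Type := Multiplicative (ZMod 2)

/-- The group of the second shifts. -/
abbrev C3 : Type := Multiplicative (ZMod 3)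

/-- The group with two elements generated by the exchange of the poles. -/
abbrev Zs : Type := Subgroup.zpowers xs

/-- The action of the even part. -/
noncomputable def a1 : A5s →* Equiv.Perm VV := aV.comp A5s.subtype

/-- The action of the exchange. -/
noncomputable def a2 : Zs →* Equiv.Perm VV := aV.comp (Subgroup.zpowers xs).subtype

theorem hcomm (g : A5s) (h : Zs) : a1 g * a2 h = a2 h * a1 g := by
  show aV g.1 * aV h.1 = aV h.1 * aV g.1
  rw [← map_mul, ← map_mul]
  congr 1
  rcases mem_zs h.1 h.2 with e | e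
  · rw [e, one_mul, mul_one]
  · rw [e, xs_comm]

/-- The nontrivial first shift. -/
abbrev s1 : C2 := Multiplicative.ofAdd 1

/-- A second shift. -/
abbrev s2 : C3 := Multiplicative.ofAdd 1

/-- A second shift. -/
abbrev s3 : C3 := Multiplicative.ofAdd 2

theorem c2_cases : ∀ q : C2, q = 1 ∨ q = s1 := by decide

theorem c3_cases : ∀ q : C3, q = 1 ∨ q = s2 ∨ q = s3 := by decide

theorem ne1 : s1 ≠ 1 := by decide

theorem ne2 : s2 ≠ 1 := by decide

theorem ne3 : s3 ≠ 1 := by decide

theorem ne32 : s3 ≠ s2 := by decide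

/-- The word. -/
noncomputable def w0 (c : C2 × C3) : Option VV :=
  if c.1 = 1 then
    (if c.2 = 1 then some (Sum.inl 0) else if c.2 = s2 then some (Sum.inl 7)
      else some (Sum.inl 11))
  else
    (if c.2 = 1 then some (Sum.inr ⟨0, ((kk : GG) : GG ⧸ St 0)⟩) else
      if c.2 = s2 then some (Sum.inr ⟨1, ((1 : GG) : GG ⧸ St 1)⟩) else none)

theorem w00 : w0 (1, 1) = some (Sum.inl 0) := by
  unfold w0; rw [if_pos rfl, if_pos rfl]

theorem w01 : w0 (1, s2) = some (Sum.inl 7) := by
  unfold w0; rw [if_pos rfl, if_neg ne2, if_pos rfl]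

theorem w02 : w0 (1, s3) = some (Sum.inl 11) := by
  unfold w0; rw [if_pos rfl, if_neg ne3, if_neg ne32]

theorem w10 : w0 (s1, 1) = some (Sum.inr ⟨0, ((kk : GG) : GG ⧸ St 0)⟩) := by
  unfold w0; rw [if_neg ne1, if_pos rfl]

theorem w11 : w0 (s1, s2) = some (Sum.inr ⟨1, ((1 : GG) : GG ⧸ St 1)⟩) := by
  unfold w0; rw [if_neg ne1, if_neg ne2, if_pos rfl]

theorem w12 : w0 (s1, s3) = none := by
  unfold w0; rw [if_neg ne1, if_neg ne3, if_neg ne32]

/-- An element of the group without shift. -/
def mk (f : C2 → A5s) (h : C3 → Zs) : Gm A5s Zs C2 C3 := (⟨f, 1⟩, ⟨h, 1⟩)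

theorem mv_mk (f : C2 → A5s) (h : C3 → Zs) (w : C2 × C3 → Option VV) (c : C2 × C3) :
    mv a1 a2 (mk f h) w c = (w c).map fun x => aV (f c.1).1 (aV (h c.2).1 x) := by
  unfold mv cb lp mk
  show (w ((1 : C2)⁻¹ * c.1, (1 : C3)⁻¹ * c.2)).map _ = _
  rw [inv_one, inv_one, one_mul, one_mul]
  rfl

theorem mv_mk' (f : C2 → A5s) (h : C3 → Zs) (w : C2 × C3 → Option VV) (p : C2) (q : C3)
    (u v : VV) (hu : w (p, q) = some u) (hv : aV (f p).1 (aV (h q).1 u) = v) :
    mv a1 a2 (mk f h) w (p, q) = some v := by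
  rw [mv_mk, hu, Option.map_some]
  exact congrArg some hv

/-- An element of the group which moves the coordinate `c` to the first one. -/
def mc (c : C2 × C3) (g : A5s) (h : Zs) : Gm A5s Zs C2 C3 :=
  (⟨fun _ => g, c.1⁻¹⟩, ⟨fun _ => h, c.2⁻¹⟩)

theorem mv_mc (c : C2 × C3) (g : A5s) (h : Zs) (w : C2 × C3 → Option VV) :
    mv a1 a2 (mc c g h) w 1 = (w c).map fun x => aV g.1 (aV h.1 x) := by
  unfold mv cb lp mc
  show (w ((c.1⁻¹)⁻¹ * 1, (c.2⁻¹)⁻¹ * 1)).map _ = _
  rw [inv_inv, inv_inv, mul_one, mul_one]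
  rfl

theorem aV1 (x : VV) : aV 1 x = x := by
  rw [map_one]
  rfl

theorem mv_mc' (c : C2 × C3) (g : GG) (u v : VV) (hu : w0 c = some u) (hv : aV g u = v) :
    ∃ γ : Gm A5s Zs C2 C3, mv a1 a2 γ w0 1 = some v := by
  obtain ⟨g1, hg1, h, hh, e⟩ := decomp g
  refine ⟨mc c ⟨g1, hg1⟩ ⟨h, hh⟩, ?_⟩
  rw [mv_mc, hu, Option.map_some, ← hv, e, map_mul]
  rfl

theorem hocc (v : VV) : ∃ γ : Gm A5s Zs C2 C3, mv a1 a2 γ w0 1 = some v := by
  rcases v with x | ⟨j, x⟩
  · have h3 : blk13 x = 0 ∨ blk13 x = 1 ∨ x = 11 ∨ x = 12 := by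
      revert x
      decide
    rcases h3 with h | h | rfl | rfl
    · obtain ⟨g, -, h1, -⟩ := X1 x h
      exact mv_mc' (1, 1) g _ _ w00 (by rw [aV_inl, h1])
    · obtain ⟨g, -, -, h1⟩ := X2 x h
      exact mv_mc' (1, s2) g _ _ w01 (by rw [aV_inl, h1])
    · exact mv_mc' (1, s3) 1 _ _ w02 (aV1 _)
    · exact mv_mc' (1, s3) xs _ _ w02 (by rw [aV_inl, xs_pole.1])
  · obtain ⟨g, rfl⟩ := QuotientGroup.mk_surjective x
    have key : ∀ j : Fin 2, j = 0 ∨ j = 1 := by decide
    rcases key j with rfl | rfl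
    · exact mv_mc' (s1, 1) (g * kk⁻¹) _ _ w10 (by rw [aV_mk, inv_mul_cancel_right])
    · exact mv_mc' (s1, s2) g _ _ w11 (by rw [aV_mk, mul_one])

theorem A5s_pole (g : A5s) (i : Fin 13) (hi : blk13 i = 2) : aV g.1 (Sum.inl i) = Sum.inl i := by
  rw [aV_inl, pole_fix g.1 g.2 i hi]

/-- A function with one given value. -/
def at1 {Q D : Type} [DecidableEq Q] [One D] (q : Q) (x : D) (p : Q) : D := if p = q then x else 1

theorem at1_eq {Q D : Type} [DecidableEq Q] [One D] (q : Q) (x : D) : at1 q x q = x := if_pos rfl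

theorem at1_ne {Q D : Type} [DecidableEq Q] [One D] (q p : Q) (x : D) (h : p ≠ q) :
    at1 q x p = 1 := if_neg h

theorem one1 : ((1 : A5s) : GG) = 1 := rfl

theorem one2 : ((1 : Zs) : GG) = 1 := rfl

/-- Fixed letters. -/
theorem fixd (f : C2 → A5s) (h : C3 → Zs) (p : C2) (q : C3)
    (hfix : ∀ u, w0 (p, q) = some u → aV (f p).1 (aV (h q).1 u) = u) :
    mv a1 a2 (mk f h) w0 (p, q) = w0 (p, q) := by
  cases e : w0 (p, q) with
  | none => rw [mv_mk, e]; rfl
  | some u => exact mv_mk' f h w0 p q u u e (hfix u e)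

/-- The exchange of the poles as an element of the small group. -/
def xz : Zs := ⟨xs, Subgroup.mem_zpowers xs⟩

theorem hex0 (c : C2 × C3) (u v : VV) (hc : w0 c = some u) (huv : EE u v) :
    ∃ γ : Gm A5s Zs C2 C3, mv a1 a2 γ w0 c = some v ∧ ∀ d, d ≠ c → mv a1 a2 γ w0 d = w0 d := by
  obtain ⟨c1, c2⟩ := c
  rcases c2_cases c1 with rfl | rfl <;> rcases c3_cases c2 with rfl | rfl | rfl
  · -- a point
    rw [w00] at hc
    obtain rfl := Option.some_injective _ hc
    rcases huv with ⟨x, y, hx, rfl, hxy⟩ | ⟨s, hs, -⟩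
    · obtain rfl := Sum.inl_injective hx
      obtain ⟨g, hg, h1, h2⟩ := X1 y hxy.symm
      refine ⟨mk (at1 1 ⟨g, hg⟩) (fun _ => 1), ?_, ?_⟩
      · refine mv_mk' _ _ _ _ _ _ _ w00 ?_
        rw [at1_eq, one2, aV1, aV_inl, h1]
      · rintro ⟨d1, d2⟩ hd
        refine fixd _ _ _ _ (fun u hu => ?_)
        rw [one2, aV1]
        rcases c2_cases d1 with rfl | rfl
        · rw [at1_eq]
          rcases c3_cases d2 with rfl | rfl | rfl
          · exact absurd rfl hd
          · rw [w01] at hu
            obtain rfl := Option.some_injective _ hu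
            rw [aV_inl, h2]
          · rw [w02] at hu
            obtain rfl := Option.some_injective _ hu
            exact A5s_pole ⟨g, hg⟩ 11 (by decide)
        · rw [at1_ne _ _ _ ne1, one1, aV1]
    · cases hs
  · -- a centre
    rw [w01] at hc
    obtain rfl := Option.some_injective _ hc
    rcases huv with ⟨x, y, hx, rfl, hxy⟩ | ⟨s, hs, -⟩
    · obtain rfl := Sum.inl_injective hx
      obtain ⟨g, hg, h1, h2⟩ := X2 y hxy.symm
      refine ⟨mk (at1 1 ⟨g, hg⟩) (fun _ => 1), ?_, ?_⟩
      · refine mv_mk' _ _ _ _ _ _ _ w01 ?_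
        rw [at1_eq, one2, aV1, aV_inl, h2]
      · rintro ⟨d1, d2⟩ hd
        refine fixd _ _ _ _ (fun u hu => ?_)
        rw [one2, aV1]
        rcases c2_cases d1 with rfl | rfl
        · rw [at1_eq]
          rcases c3_cases d2 with rfl | rfl | rfl
          · rw [w00] at hu
            obtain rfl := Option.some_injective _ hu
            rw [aV_inl, h1]
          · exact absurd rfl hd
          · rw [w02] at hu
            obtain rfl := Option.some_injective _ hu
            exact A5s_pole ⟨g, hg⟩ 11 (by decide)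
        · rw [at1_ne _ _ _ ne1, one1, aV1]
    · cases hs
  · -- a pole
    rw [w02] at hc
    obtain rfl := Option.some_injective _ hc
    rcases huv with ⟨x, y, hx, rfl, hxy⟩ | ⟨s, hs, -⟩
    · obtain rfl := Sum.inl_injective hx
      have hy : y = 11 ∨ y = 12 := by
        revert y
        decide
      rcases hy with rfl | rfl
      · refine ⟨1, ?_, fun d _ => ?_⟩
        · rw [mv_one, w02]
        · rw [mv_one]
      · refine ⟨mk (fun _ => 1) (at1 s3 xz), ?_, ?_⟩
        · refine mv_mk' _ _ _ _ _ _ _ w02 ?_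
          rw [at1_eq, one1, aV1]
          show aV xs (Sum.inl 11) = _
          rw [aV_inl, xs_pole.1]
        · rintro ⟨d1, d2⟩ hd
          refine fixd _ _ _ _ (fun u hu => ?_)
          rw [one1, aV1]
          rcases c3_cases d2 with rfl | rfl | rfl
          · rw [at1_ne _ _ _ ne3.symm, one2, aV1]
          · rw [at1_ne _ _ _ ne32.symm, one2, aV1]
          · rcases c2_cases d1 with rfl | rfl
            · exact absurd rfl hd
            · rw [w12] at hu
              cases hu
    · cases hs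
  · -- a new vertex
    rw [w10] at hc
    obtain rfl := Option.some_injective _ hc
    rcases huv with ⟨x, y, hx, -, -⟩ | ⟨s, hs, rfl⟩
    · cases hx
    · rw [← hs]
      refine ⟨mk (fun _ => 1) (at1 1 xz), ?_, ?_⟩
      · refine mv_mk' _ _ _ _ _ _ _ w10 ?_
        rw [at1_eq, one1, aV1]
        rfl
      · rintro ⟨d1, d2⟩ hd
        refine fixd _ _ _ _ (fun u hu => ?_)
        rw [one1, aV1]
        rcases c3_cases d2 with rfl | rfl | rfl
        · rcases c2_cases d1 with rfl | rfl
          · rw [w00] at hu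
            obtain rfl := Option.some_injective _ hu
            rw [at1_eq]
            show aV xs (Sum.inl 0) = _
            rw [aV_inl, xs_fix 0 (by decide)]
          · exact absurd rfl hd
        · rw [at1_ne _ _ _ ne2, one2, aV1]
        · rw [at1_ne _ _ _ ne3, one2, aV1]
  · -- a new vertex
    rw [w11] at hc
    obtain rfl := Option.some_injective _ hc
    rcases huv with ⟨x, y, hx, -, -⟩ | ⟨s, hs, rfl⟩
    · cases hx
    · rw [← hs]
      refine ⟨mk (fun _ => 1) (at1 s2 xz), ?_, ?_⟩
      · refine mv_mk' _ _ _ _ _ _ _ w11 ?_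
        rw [at1_eq, one1, aV1]
        rfl
      · rintro ⟨d1, d2⟩ hd
        refine fixd _ _ _ _ (fun u hu => ?_)
        rw [one1, aV1]
        rcases c3_cases d2 with rfl | rfl | rfl
        · rw [at1_ne _ _ _ ne2.symm, one2, aV1]
        · rcases c2_cases d1 with rfl | rfl
          · rw [w01] at hu
            obtain rfl := Option.some_injective _ hu
            rw [at1_eq]
            show aV xs (Sum.inl 7) = _
            rw [aV_inl, xs_fix 7 (by decide)]
          · exact absurd rfl hd
        · rw [at1_ne _ _ _ ne32, one2, aV1]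
  · rw [w12] at hc
    cases hc

theorem hz0 : ∃ γ : Gm A5s Zs C2 C3, ∀ c, mv a1 a2 γ w0 c ≠ some va ∧
    mv a1 a2 γ w0 c ≠ some vb := by
  refine ⟨1, fun c => ?_⟩
  rw [mv_one]
  obtain ⟨c1, c2⟩ := c
  rcases c2_cases c1 with rfl | rfl <;> rcases c3_cases c2 with rfl | rfl | rfl
  · rw [w00]; exact ⟨fun h => (by cases h), fun h => (by cases h)⟩
  · rw [w01]; exact ⟨fun h => (by cases h), fun h => (by cases h)⟩
  · rw [w02]; exact ⟨fun h => (by cases h), fun h => (by cases h)⟩
  · rw [w10]
    constructor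
    · intro h
      obtain ⟨h1, -⟩ := sig_inj (Option.some_injective _ h)
      exact absurd h1 (by decide)
    · intro h
      obtain ⟨h1, -⟩ := sig_inj (Option.some_injective _ h)
      exact absurd h1 (by decide)
  · rw [w11]
    constructor
    · intro h
      obtain ⟨-, h1⟩ := sig_inj (Option.some_injective _ h)
      rw [inv_one, one_mul] at h1
      exact xs_not (St_le _ h1)
    · intro h
      obtain ⟨-, h1⟩ := sig_inj (Option.some_injective _ h)
      rw [inv_one, one_mul] at h1
      exact x5_not (St_le _ h1)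
  · rw [w12]; exact ⟨fun h => (by cases h), fun h => (by cases h)⟩

/-- The first involution as an element of the even part. -/
def h1a : A5s := ⟨h1, h1_A5s⟩

/-- Some elements of the stabiliser. -/
def stb (b : Bool × Bool) : Gm A5s Zs C2 C3 :=
  mk (fun p => if p = 1 then (if b.1 = true then h1a else 1) else (if b.2 = true then h1a else 1))
    (at1 1 (if b.2 = true then xz else 1))

theorem stb_inj : Function.Injective stb := by
  rintro ⟨i, j⟩ ⟨i', j'⟩ h
  have h0 : ∀ (i j : Bool) (p : C2), (stb (i, j)).1.left p =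
      if p = 1 then (if i = true then h1a else 1) else (if j = true then h1a else 1) :=
    fun _ _ _ => rfl
  have hne : h1a ≠ 1 := fun h => h1_ne (congrArg Subtype.val h)
  have h1 := congrArg (fun γ : Gm A5s Zs C2 C3 => γ.1.left 1) h
  have h2 := congrArg (fun γ : Gm A5s Zs C2 C3 => γ.1.left s1) h
  change (stb (i, j)).1.left 1 = (stb (i', j')).1.left 1 at h1
  change (stb (i, j)).1.left s1 = (stb (i', j')).1.left s1 at h2
  rw [h0, h0, if_pos rfl, if_pos rfl] at h1
  rw [h0, h0, if_neg ne1, if_neg ne1] at h2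
  have key : ∀ i i' : Bool, (if i = true then h1a else 1) = (if i' = true then h1a else 1) →
      i = i' := by
    intro i i' h
    cases i <;> cases i'
    · rfl
    · rw [if_neg (by decide), if_pos rfl] at h; exact absurd h.symm hne
    · rw [if_pos rfl, if_neg (by decide)] at h; exact absurd h hne
    · rfl
  rw [key i i' h1, key j j' h2]

theorem gh1_fix : gh1 0 = 0 ∧ gh1 7 = 7 := by decide

theorem stb_fix (b : Bool × Bool) : mv a1 a2 (stb b) w0 = w0 := by
  obtain ⟨i, j⟩ := b
  have hA : ∀ (i : Bool) (x : VV), aV h1 x = x → aV (if i = true then h1a else 1 : A5s).1 x = x := by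
    intro i x hx
    cases i
    · rw [if_neg (by decide)]; exact aV1 x
    · rw [if_pos rfl]; exact hx
  have hX : ∀ (i : Bool) (x : VV), aV xs x = x → aV (if i = true then xz else 1 : Zs).1 x = x := by
    intro i x hx
    cases i
    · rw [if_neg (by decide)]; exact aV1 x
    · rw [if_pos rfl]; exact hx
  funext ⟨d1, d2⟩
  refine fixd _ _ _ _ (fun u hu => ?_)
  rcases c2_cases d1 with rfl | rfl <;> rcases c3_cases d2 with rfl | rfl | rfl
  · rw [w00] at hu
    obtain rfl := Option.some_injective _ hu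
    rw [at1_eq, if_pos rfl, hX _ _ (by rw [aV_inl, xs_fix 0 (by decide)]), hA]
    rw [aV_inl, h1_act, gh1_fix.1]
  · rw [w01] at hu
    obtain rfl := Option.some_injective _ hu
    rw [at1_ne _ _ _ ne2, if_pos rfl, one2, aV1, hA]
    rw [aV_inl, h1_act, gh1_fix.2]
  · rw [w02] at hu
    obtain rfl := Option.some_injective _ hu
    rw [at1_ne _ _ _ ne3, if_pos rfl, one2, aV1]
    exact A5s_pole _ 11 (by decide)
  · rw [w10] at hu
    obtain rfl := Option.some_injective _ hu
    rw [at1_eq, if_neg ne1]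
    cases j
    · rw [if_neg (show ¬ (i, false).2 = true from Bool.false_ne_true),
        if_neg (show ¬ (i, false).2 = true from Bool.false_ne_true), one1, one2, aV1, aV1]
    · rw [if_pos rfl, if_pos rfl]
      show aV h1 (aV xs _) = _
      rw [aV_mk, aV_mk]
      refine sig_eq rfl ?_
      have e : h1 * (xs * kk) = kk * (h1 * h2) := by rw [kk_conj, mul_assoc]
      rw [e, mul_inv_rev, mul_assoc, inv_mul_cancel, mul_one]
      exact inv_mem h12_St
  · rw [w11] at hu
    obtain rfl := Option.some_injective _ hu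
    rw [at1_ne _ _ _ ne2, if_neg ne1, one2, aV1, hA]
    rw [aV_mk]
    refine sig_eq rfl ?_
    rw [mul_one, mul_one]
    exact inv_mem h1_St
  · rw [w12] at hu
    cases hu

theorem card_gm : Nat.card (Gm A5s Zs C2 C3) ≤ 172800 := by
  rw [Nat.card_prod, RegularWreathProduct.card, RegularWreathProduct.card, card_zs]
  have e2 : Nat.card C2 = 2 := by
    rw [Nat.card_eq_fintype_card]; rfl
  have e3 : Nat.card C3 = 3 := by
    rw [Nat.card_eq_fintype_card]; rfl
  rw [e2, e3]
  have h := Nat.pow_le_pow_left card_A5s 2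
  omega

theorem card_tw : Nat.card (Tw a1 a2 w0) ≤ 43200 := by
  letI := tact a1 a2 w0 hcomm
  let x0 : Tw a1 a2 w0 := ⟨w0, 1, mv_one a1 a2 w0⟩
  haveI : MulAction.IsPretransitive (Gm A5s Zs C2 C3) (Tw a1 a2 w0) := ⟨by
    rintro ⟨v, γ, rfl⟩ ⟨w, δ, rfl⟩
    refine ⟨δ * γ⁻¹, Subtype.ext ?_⟩
    show mv a1 a2 (δ * γ⁻¹) (mv a1 a2 γ w0) = mv a1 a2 δ w0
    rw [← mv_mul a1 a2 hcomm, inv_mul_cancel_right]⟩
  have h1 := MulAction.index_stabilizer_of_transitive (Gm A5s Zs C2 C3) x0
  have h2 := Subgroup.index_mul_card (MulAction.stabilizer (Gm A5s Zs C2 C3) x0)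
  have h3 : 4 ≤ Nat.card (MulAction.stabilizer (Gm A5s Zs C2 C3) x0) := by
    let f : Bool × Bool → MulAction.stabilizer (Gm A5s Zs C2 C3) x0 := fun b =>
      ⟨stb b, Subtype.ext (stb_fix b)⟩
    have hf : Function.Injective f := by
      intro b b' hb
      exact stb_inj (congrArg Subtype.val hb)
    have h := Nat.card_le_card_of_injective f hf
    rw [Nat.card_prod, Nat.card_eq_fintype_card, Fintype.card_bool] at h
    exact h
  have h4 := card_gm
  rw [h1] at h2
  nlinarith

theorem MM_ne : MM ≠ [] := by decide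

/-- A monotone function of `43200` variables with a transitive group which acts faithfully on
`16` points, not evasive. -/
theorem datum2 : Datum 16 (43200 - 1) 43200 := by
  have h := tw_datum a1 a2 w0 hcomm (Sorb aV psi MM) EE
    (fun g A => sorb_smul aV psi MM g.1 A) (fun g A => sorb_smul aV psi MM g.1 A)
    (fun g => EE_aV g.1) (fun g => EE_aV g.1) (sorb_down aV psi MM)
    (sorb_empty aV psi MM MM_ne) hocc hex0 va vb hz0 pair_not w1s.1 w1s.2
    (Λ1 := Fin 5) (Λ2 := Fin 2) rho1 rho1_inj rho2 rho2_inj 43200 card_tw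
  have e : Fintype.card (Fin 5) * Fintype.card C2 + Fintype.card (Fin 2) * Fintype.card C3 = 16 := by
    rfl
  rw [e] at h
  exact h

end Pool.Agent.H393.EX
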