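import Pool.Agent.H393.EV.Card
import Pool.Agent.H393.EX.Data

/-! The four-group in `A5 × C2` and some elements of the group.  (helper393) -/

set_option autoImplicit false

namespace Pool.Agent.H393.EX

open Pool.Agent.H571R3 Pool.Agent.R282.EV Pool.Agent.H684.EV Pool.Agent.H393.EV

theorem gext {g h : GG} (e : g.1.1 = h.1.1) : g = h := Subtype.ext (Subtype.ext e)

/-- The first involution, on the thirteen points. -/
def gh1 : Equiv.Perm (Fin 13) where
  toFun := ![0, 4, 3, 2, 1, 10, 9, 7, 8, 6, 5, 11, 12]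
  invFun := ![0, 4, 3, 2, 1, 10, 9, 7, 8, 6, 5, 11, 12]
  left_inv := by decide
  right_inv := by decide

/-- The second involution, on the thirteen points. -/
def gh2 : Equiv.Perm (Fin 13) where
  toFun := ![0, 2, 1, 4, 3, 5, 9, 8, 7, 6, 10, 12, 11]
  invFun := ![0, 2, 1, 4, 3, 5, 9, 8, 7, 6, 10, 12, 11]
  left_inv := by decide
  right_inv := by decide

/-- The second involution on the five points. -/
def a2' : Equiv.Perm (Fin 5) where
  toFun := ![0, 2, 1, 4, 3]
  invFun := ![0, 2, 1, 4, 3]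
  left_inv := by decide
  right_inv := by decide

/-- The second involution on the six centres. -/
def b2' : Equiv.Perm (Fin 6) where
  toFun := ![0, 4, 3, 2, 1, 5]
  invFun := ![0, 4, 3, 2, 1, 5]
  left_inv := by decide
  right_inv := by decide

/-- The values of the elements. -/
abbrev q1 : P3 := (at', (bt', 1))

/-- The values of the elements. -/
abbrev q2 : P3 := (a2', (b2', Equiv.swap 0 1))

/-- The values of the elements. -/
abbrev qs : P3 := (1, (1, Equiv.swap 0 1))

theorem Jh1 : J q1 = gh1 := by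
  apply Equiv.ext
  decide

theorem Jh2 : J q2 = gh2 := by
  apply Equiv.ext
  decide

theorem h1_mem : Inv (J q1) := by
  rw [Jh1]; exact inv_of_maps gh1 (by decide +kernel) (by decide +kernel)

theorem h2_mem : Inv (J q2) := by
  rw [Jh2]; exact inv_of_maps gh2 (by decide +kernel) (by decide +kernel)

/-- The first involution. -/
def h1 : GG := ⟨⟨q1, h1_mem⟩, by show Equiv.Perm.sign at' = 1; decide +kernel⟩

/-- The second involution. -/
def h2 : GG := ⟨⟨q2, h2_mem⟩, by show Equiv.Perm.sign a2' = 1; decide +kernel⟩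

theorem h1_act : act h1 = gh1 := Jh1

theorem h2_act : act h2 = gh2 := Jh2

theorem xs_act : act xs = gsw := Jsw

theorem h11 : h1 * h1 = 1 := gext (by
  show (at' * at', (bt' * bt', (1 : Equiv.Perm (Fin 2)) * 1)) = (1, (1, 1))
  rw [show at' * at' = 1 by decide +kernel, show bt' * bt' = 1 by decide +kernel, one_mul])

theorem h22 : h2 * h2 = 1 := gext (by
  show (a2' * a2', (b2' * b2', Equiv.swap 0 1 * Equiv.swap 0 1)) =
    ((1 : Equiv.Perm (Fin 5)), ((1 : Equiv.Perm (Fin 6)), (1 : Equiv.Perm (Fin 2))))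
  rw [show a2' * a2' = 1 by decide +kernel, show b2' * b2' = 1 by decide +kernel,
    Equiv.swap_mul_self])

theorem xss : xs * xs = 1 := gext (by
  show ((1 : Equiv.Perm (Fin 5)) * 1, ((1 : Equiv.Perm (Fin 6)) * 1,
    (Equiv.swap 0 1 : Equiv.Perm (Fin 2)) * Equiv.swap 0 1)) = (1, (1, 1))
  rw [Equiv.swap_mul_self, one_mul, one_mul])

theorem h12c : h1 * h2 = h2 * h1 := gext (by
  show (at' * a2', (bt' * b2', (1 : Equiv.Perm (Fin 2)) * Equiv.swap 0 1)) =
    (a2' * at', (b2' * bt', Equiv.swap 0 1 * 1))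
  rw [show at' * a2' = a2' * at' by decide +kernel, show bt' * b2' = b2' * bt' by decide +kernel,
    one_mul, mul_one])

theorem p2c : ∀ c : Equiv.Perm (Fin 2), c = 1 ∨ c = Equiv.swap 0 1 := by decide

theorem xs_comm (g : GG) : g * xs = xs * g := gext (by
  show (g.1.1.1 * 1, (g.1.1.2.1 * 1, g.1.1.2.2 * Equiv.swap 0 1)) =
    (1 * g.1.1.1, (1 * g.1.1.2.1, Equiv.swap 0 1 * g.1.1.2.2))
  rw [one_mul, one_mul, mul_one, mul_one]
  rcases p2c g.1.1.2.2 with h | h
  · rw [h, one_mul, mul_one]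
  · rw [h])

/-- The four-group. -/
def H4 : Subgroup GG where
  carrier := {g | g = 1 ∨ g = h1 ∨ g = h2 ∨ g = h1 * h2}
  mul_mem' := by
    have e1 : h1 * (h1 * h2) = h2 := by rw [← mul_assoc, h11, one_mul]
    have e2 : h2 * (h1 * h2) = h1 := by rw [h12c, ← mul_assoc, h22, one_mul]
    have e3 : h1 * h2 * h1 = h2 := by rw [h12c, mul_assoc, h11, mul_one]
    have e4 : h1 * h2 * h2 = h1 := by rw [mul_assoc, h22, mul_one]
    have e5 : h1 * h2 * (h1 * h2) = 1 := by rw [← mul_assoc, e3, h22]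
    rintro a b (rfl | rfl | rfl | rfl) (rfl | rfl | rfl | rfl)
    · left; rw [one_mul]
    · right; left; rw [one_mul]
    · right; right; left; rw [one_mul]
    · right; right; right; rw [one_mul]
    · right; left; rw [mul_one]
    · left; rw [h11]
    · right; right; right; rfl
    · right; right; left; exact e1
    · right; right; left; rw [mul_one]
    · right; right; right; exact h12c.symm
    · left; exact h22
    · right; left; exact e2
    · right; right; right; rw [mul_one]
    · right; right; left; exact e3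
    · right; left; exact e4
    · left; exact e5
  one_mem' := Or.inl rfl
  inv_mem' := by
    have e5 : h1 * h2 * (h1 * h2) = 1 := by
      rw [← mul_assoc, h12c, mul_assoc h2, h11, mul_one, h22]
    rintro a (rfl | rfl | rfl | rfl)
    · left; exact inv_one
    · right; left; exact inv_eq_of_mul_eq_one_right h11
    · right; right; left; exact inv_eq_of_mul_eq_one_right h22
    · right; right; right; exact inv_eq_of_mul_eq_one_right e5

theorem mem_H4 (g : GG) : g ∈ H4 ↔ g = 1 ∨ g = h1 ∨ g = h2 ∨ g = h1 * h2 := Iff.rfl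

theorem h1_H4 : h1 ∈ H4 := Or.inr (Or.inl rfl)

theorem h2_H4 : h2 ∈ H4 := Or.inr (Or.inr (Or.inl rfl))

theorem H4_0 (g : GG) (hg : g ∈ H4) : act g 0 = 0 := by
  rcases (mem_H4 g).1 hg with rfl | rfl | rfl | rfl
  · rw [map_one]; rfl
  · rw [h1_act]; rfl
  · rw [h2_act]; rfl
  · rw [map_mul, h1_act, h2_act]; rfl

theorem H4_1 (g : GG) (hg : g ∈ H4) (h : act g 1 = 1) : g = 1 := by
  rcases (mem_H4 g).1 hg with rfl | rfl | rfl | rfl
  · rfl
  · rw [h1_act] at h; exact absurd h (by decide)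
  · rw [h2_act] at h; exact absurd h (by decide)
  · rw [map_mul, h1_act, h2_act] at h; exact absurd h (by decide)

theorem xs_not : xs ∉ H4 := by
  intro h
  have h1 := H4_1 xs h (by rw [xs_act]; decide)
  have h2 := xs_act
  rw [h1, map_one] at h2
  have := congrArg (fun e : Equiv.Perm (Fin 13) => e 11) h2
  exact absurd this (by decide)

theorem x5_act : act x5 = g5 := J5

theorem x5_not : x5 ∉ H4 := by
  intro h
  have h1 := H4_0 x5 h
  rw [x5_act] at h1
  exact absurd h1 (by decide)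

theorem xsx5_not : xs⁻¹ * x5 ∉ H4 := by
  intro h
  have h1 := H4_0 _ h
  rw [show xs⁻¹ = xs from inv_eq_of_mul_eq_one_right xss, map_mul, xs_act, x5_act] at h1
  exact absurd h1 (by decide)

theorem h1_ne : h1 ≠ 1 := by
  intro h
  have h2 := h1_act
  rw [h, map_one] at h2
  have := congrArg (fun e : Equiv.Perm (Fin 13) => e 1) h2
  exact absurd this (by decide)

theorem h2_ne : h2 ≠ 1 := by
  intro h
  have h2 := h2_act
  rw [h, map_one] at h2
  have := congrArg (fun e : Equiv.Perm (Fin 13) => e 1) h2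
  exact absurd this (by decide)

theorem h12_ne : h1 ≠ h2 := by
  intro h
  have h2 := h1_act
  rw [h, h2_act] at h2
  have := congrArg (fun e : Equiv.Perm (Fin 13) => e 1) h2
  exact absurd this (by decide)

/-- The values of words. -/
def evP : List Bool → P3
  | [] => 1
  | true :: l => (a5, (b5, 1)) * evP l
  | false :: l => (a3, (b3, 1)) * evP l

theorem evG_val (l : List Bool) : (evG l).1.1 = evP l := by
  induction l with
  | nil => rfl
  | cons b l ih =>
    cases b
    · show (a3, (b3, 1)) * (evG l).1.1 = _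
      rw [ih]; rfl
    · show (a5, (b5, 1)) * (evG l).1.1 = _
      rw [ih]; rfl

theorem act_evG (l : List Bool) : act (evG l) = J (evP l) := by
  show J (evG l).1.1 = _
  rw [evG_val]

/-- The conjugating element. -/
def kk : GG := evG [false, false, true]

theorem kk_conj : kk * (h1 * h2) = h1 * xs * kk := gext (by
  show (evG [false, false, true]).1.1 * (q1 * q2) = q1 * qs * (evG [false, false, true]).1.1
  rw [evG_val]
  decide +kernel)

theorem X1 : ∀ v : Fin 13, blk13 v = 0 → ∃ g : GG, g.1.1.2.2 = 1 ∧ act g 0 = v ∧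
    act g 7 = 7 := by
  intro v hv
  have key : ∀ v : Fin 13, blk13 v = 0 → ∃ l ∈ ([[], [true], [true, true], [true, true, true],
    [true, true, true, true]] : List (List Bool)), J (evP l) 0 = v ∧ J (evP l) 7 = 7 := by
    decide +kernel
  obtain ⟨l, -, h1, h2⟩ := key v hv
  exact ⟨evG l, evG_snd l, by rw [act_evG]; exact h1, by rw [act_evG]; exact h2⟩

theorem X2 : ∀ v : Fin 13, blk13 v = 1 → ∃ g : GG, g.1.1.2.2 = 1 ∧ act g 0 = 0 ∧
    act g 7 = v := by
  intro v hv
  have key : ∀ v : Fin 13, blk13 v = 1 → ∃ l ∈ ([[false, false, true], [false, true, false], [],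
    [false, true, true], [true, false, true, true, true, true],
    [true, true, true, false, true]] : List (List Bool)), J (evP l) 0 = 0 ∧ J (evP l) 7 = v := by
    decide +kernel
  obtain ⟨l, -, h1, h2⟩ := key v hv
  exact ⟨evG l, evG_snd l, by rw [act_evG]; exact h1, by rw [act_evG]; exact h2⟩

theorem pole_fix (g : GG) (hg : g.1.1.2.2 = 1) (i : Fin 13) (hi : blk13 i = 2) :
    act g i = i := by
  have key : ∀ i : Fin 13, blk13 i = 2 → ∃ c : Fin 2, e13 (Sum.inr (Sum.inr c)) = i := by decide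
  obtain ⟨c, rfl⟩ := key i hi
  have h : act g (e13 (Sum.inr (Sum.inr c))) =
    e13 (Equiv.sumCongr g.1.1.1 (Equiv.sumCongr g.1.1.2.1 g.1.1.2.2) (Sum.inr (Sum.inr c))) :=
    J_apply g.1.1 _
  rw [h]
  show e13 (Sum.inr (Sum.inr (g.1.1.2.2 c))) = _
  rw [hg]
  rfl

theorem xs_fix (i : Fin 13) (hi : blk13 i ≠ 2) : act xs i = i := by
  rw [xs_act]
  revert i
  decide

theorem xs_pole : act xs 11 = 12 ∧ act xs 12 = 11 := by
  rw [xs_act]
  decide

/-- The even part of the group. -/
def A5s : Subgroup GG where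
  carrier := {g | g.1.1.2.2 = 1}
  mul_mem' := by
    intro a b ha hb
    show a.1.1.2.2 * b.1.1.2.2 = 1
    rw [show a.1.1.2.2 = 1 from ha, show b.1.1.2.2 = 1 from hb, one_mul]
  one_mem' := rfl
  inv_mem' := by
    intro a ha
    show (a.1.1.2.2)⁻¹ = 1
    rw [show a.1.1.2.2 = 1 from ha, inv_one]

theorem mem_A5s (g : GG) : g ∈ A5s ↔ g.1.1.2.2 = 1 := Iff.rfl

theorem h1_A5s : h1 ∈ A5s := rfl

theorem kk_A5s : kk ∈ A5s := evG_snd _

theorem decomp (g : GG) : ∃ g1 ∈ A5s, ∃ h ∈ Subgroup.zpowers xs, g = g1 * h := by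
  rcases p2c g.1.1.2.2 with h | h
  · exact ⟨g, h, 1, one_mem _, (mul_one g).symm⟩
  · refine ⟨g * xs, ?_, xs, Subgroup.mem_zpowers xs, by rw [mul_assoc, xss, mul_one]⟩
    show g.1.1.2.2 * Equiv.swap 0 1 = 1
    rw [h, Equiv.swap_mul_self]

theorem A5s_ext (g h : GG) (hg : g ∈ A5s) (hh : h ∈ A5s) (e : g.1.1.1 = h.1.1.1) : g = h := by
  apply r7'_inj
  show Equiv.Perm.sumCongrHom (Fin 5) (Fin 2) (g.1.1.1, g.1.1.2.2) =
    Equiv.Perm.sumCongrHom (Fin 5) (Fin 2) (h.1.1.1, h.1.1.2.2)
  rw [e, show g.1.1.2.2 = 1 from hg, show h.1.1.2.2 = 1 from hh]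

/-- The action on five points. -/
def rho1 : A5s →* Equiv.Perm (Fin 5) :=
  (MonoidHom.fst (Equiv.Perm (Fin 5)) (Equiv.Perm (Fin 6) × Equiv.Perm (Fin 2))).comp
    (G0.subtype.comp (sg5.ker.subtype.comp A5s.subtype))

theorem rho1_inj : Function.Injective rho1 := by
  intro g h e
  exact Subtype.ext (A5s_ext g.1 h.1 g.2 h.2 e)

theorem card_A5s : Nat.card A5s ≤ 60 := by
  let f : A5s → alternatingGroup (Fin 5) := fun g => ⟨g.1.1.1.1, g.1.2⟩
  have hf : Function.Injective f := by
    intro g h hgh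
    exact Subtype.ext (A5s_ext g.1 h.1 g.2 h.2 (congrArg Subtype.val hgh))
  have h1 := Nat.card_le_card_of_injective f hf
  have h2 : Nat.card (alternatingGroup (Fin 5)) = 60 := by
    have h3 := two_mul_nat_card_alternatingGroup (α := Fin 5)
    rw [Nat.card_perm, Nat.card_fin] at h3
    have : Nat.factorial 5 = 120 := rfl
    omega
  omega

theorem mem_zs (g : GG) (hg : g ∈ Subgroup.zpowers xs) : g = 1 ∨ g = xs := by
  obtain ⟨k, hk⟩ := hg
  have hk' : xs ^ k = g := hk
  have h2 : xs ^ (2 : ℤ) = 1 := by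
    rw [zpow_two]
    exact xss
  rcases Int.even_or_odd' k with ⟨c, rfl | rfl⟩
  · left
    rw [← hk', zpow_mul, h2, one_zpow]
  · right
    rw [← hk', zpow_add, zpow_mul, h2, one_zpow, one_mul, zpow_one]

theorem xs_ne : xs ≠ 1 := fun h => xs_not (h ▸ one_mem _)

theorem card_zs : Nat.card (Subgroup.zpowers xs) = 2 := by
  rw [Nat.card_zpowers]
  exact orderOf_eq_prime (by rw [pow_two]; exact xss) xs_ne

/-- The action on two points. -/
def rho2 : Subgroup.zpowers xs →* Equiv.Perm (Fin 2) :=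
  (MonoidHom.snd (Equiv.Perm (Fin 6)) (Equiv.Perm (Fin 2))).comp
    ((MonoidHom.snd (Equiv.Perm (Fin 5)) (Equiv.Perm (Fin 6) × Equiv.Perm (Fin 2))).comp
    (G0.subtype.comp (sg5.ker.subtype.comp (Subgroup.zpowers xs).subtype)))

theorem rho2_inj : Function.Injective rho2 := by
  rw [injective_iff_map_eq_one]
  rintro ⟨g, hg⟩ h
  rcases mem_zs g hg with rfl | rfl
  · rfl
  · have h2 : (Equiv.swap 0 1 : Equiv.Perm (Fin 2)) = 1 := h
    exact absurd h2 (by decide)

end Pool.Agent.H393.EX
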