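import Pool.Agent.H393.EX.Win1

/-! The orbit of a nonevasive complex, with the leaf condition.  (helper393) -/

set_option autoImplicit false

namespace Pool.Agent.H393.EX

open Pool.Agent.H393.EV

section

variable {V G : Type} [Group G] (a : G →* Equiv.Perm V) (ψ : ℕ → V) (M : List ℕ)
  (n : ℕ) (lev : V → ℕ) (E : V → V → Prop)

/-- The branch where a vertex outside the chart is present. -/
theorem branch1 [Finite V] (hlev : ∀ g v, lev (a g v) = lev v)
    (hM : ∀ m ∈ M, ∀ i, m.testBit i = true → i < n)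
    (hinj : ∀ i j, i < n → j < n → ψ i = ψ j → i = j)
    (hH : ∀ (g : G) (i i' : ℕ), i < n → i' < n → lev (ψ i) ≠ 0 → a g (ψ i) = ψ i' →
      ∀ m ∈ M, m.testBit i = true → ∃ m' ∈ M, ∀ l, m.testBit l = true → lev (ψ l) ≤ lev (ψ i) →
      ∃ l', m'.testBit l' = true ∧ a g (ψ l) = ψ l')
    (hone : ∀ m ∈ M, ∀ i i', m.testBit i = true → m.testBit i' = true →
      lev (ψ i) = lev (ψ i') → lev (ψ i) ≠ 0 → i = i')
    (hEa : ∀ g u v, E u v → E (a g u) (a g v))
    (ty : ℕ → ℕ) (old : ℕ → Prop) (hold : ∀ i < n, old (ty i) → lev (ψ i) = 0)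
    (hnew : ∀ i < n, ¬ old (ty i) → lev (ψ i) ≠ 0)
    (hEold : ∀ i < n, ∀ j < n, old (ty i) → ty i = ty j → E (ψ i) (ψ j))
    (hEnew : ∀ i < n, ¬ old (ty i) → ∃ v, lev v = lev (ψ i) ∧ v ∉ Ch ψ n ∧ E v (ψ i))
    (j u R AA : ℕ) (t : Tr) (hj : 1 ≤ j) (hun : u < n) (hul : lev (ψ u) = j)
    (hut : ∀ v, lev v = j → ∃ g : G, a g (ψ u) = v)
    (hR : ∀ i, R.testBit i = true ↔ i < n ∧ lev (ψ i) < j)
    (hAA : ∀ k, AA.testBit k = true → ¬ old k)
    (hB : check1 ty true t (M.filter fun m => m.testBit u) R AA = true)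
    (w : V) (N : Set V) (hwl : lev w = j) (hwC : w ∉ Ch ψ n)
    (hN1 : ∀ v, j < lev v → v ∉ Ch ψ n → v ∈ N) (hN2 : ∀ v ∈ N, j ≤ lev v)
    (y z : V) (hyw : y ≠ w) (hyN : y ∉ N) (hyl : j ≤ lev y) (hz : z ∈ N) (hzy : E z y) :
    W1E E (Sorb a ψ M) (insert w ∅) N := by
  obtain ⟨g, hg⟩ := hut w hwl
  have key : ∀ X : Set V, w ∈ X → Disjoint X N → Sorb a ψ M X →
      ∃ m' ∈ M, m'.testBit u = true ∧ ∀ x ∈ X, lev x ≤ j ∧
        ∃ i, m'.testBit i = true ∧ i < n ∧ x = a g (ψ i) := by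
    rintro X hwX hXN ⟨g', m, hm, h⟩
    obtain ⟨i0, hi0, hwe⟩ := h w hwX
    have hl0 : lev (ψ i0) = j := by
      rw [hwe, hlev] at hwl
      exact hwl
    -- the elements of `X` have level at most `j`
    have hXl : ∀ x ∈ X, lev x ≤ j := by
      intro x hx
      by_contra hlt2
      have hxC : x ∈ Ch ψ n := by
        by_contra hxC
        exact Set.disjoint_left.1 hXN hx (hN1 x (by omega) hxC)
      obtain ⟨i1, hi1, hxe⟩ := h x hx
      obtain ⟨i2, hi2, hxc⟩ := hxC
      have hl1 : lev (ψ i1) = lev x := by rw [hxe, hlev]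
      obtain ⟨m2, hm2, h2⟩ := hH g' i1 i2 (hM m hm i1 hi1) hi2 (by omega)
        (hxe.symm.trans hxc.symm) m hm hi1
      obtain ⟨i3, hi3, h3⟩ := h2 i0 hi0 (by omega)
      exact hwC ⟨i3, hM m2 hm2 i3 hi3, by rw [← h3, ← hwe]⟩
    obtain ⟨m', hm', h'⟩ := hH (g⁻¹ * g') i0 u (hM m hm i0 hi0) hun (by omega)
      (by rw [map_mul, Equiv.Perm.mul_apply, ← hwe, ← hg, inv_app]) m hm hi0
    have key : ∀ x ∈ X, ∃ i, m'.testBit i = true ∧ i < n ∧ x = a g (ψ i) := by
      intro x hx
      obtain ⟨i, hi, hxe⟩ := h x hx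
      have hli : lev (ψ i) = lev x := by rw [hxe, hlev]
      have := hXl x hx
      obtain ⟨i', hi', he'⟩ := h' i hi (by omega)
      refine ⟨i', hi', hM m' hm' i' hi', ?_⟩
      rw [← he', map_mul, Equiv.Perm.mul_apply, app_inv]
      exact hxe
    refine ⟨m', hm', ?_, fun x hx => ⟨hXl x hx, key x hx⟩⟩
    obtain ⟨i, hi, hn, hxe⟩ := key w hwX
    have : ψ u = ψ i := (a g).injective (hg.trans hxe)
    rw [hinj _ _ hun hn this]
    exact hi
  -- the vertices of the lower levels outside the translated chart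
  refine w1e_search E (Sorb a ψ M)
    {v | (1 ≤ lev v ∧ lev v < j) ∧ ∀ i, i < n → v ≠ a g (ψ i)} _ _ _ rfl ?_ ?_
  · intro v hv _ _ N' hN'1 hN'2 _
    have hno : ∀ X, insert v (insert w ∅) ⊆ X → Disjoint X N' → ¬ Sorb a ψ M X := by
      intro X hTX hXN hSX
      obtain ⟨m', -, -, h⟩ := key X (hTX (Or.inr (Or.inl rfl)))
        (Set.disjoint_of_subset_right hN'1 hXN) hSX
      obtain ⟨-, i, -, hi, hvi⟩ := h v (hTX (Or.inl rfl))
      exact hv.2 i hi hvi
    have hyT : y ∉ insert v (insert w (∅ : Set V)) := by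
      rintro (h | h | h)
      · have := hv.1.2
        rw [← h] at this
        omega
      · exact hyw h
      · exact h
    have hyN' : y ∉ N' := by
      intro h
      rcases hN'2 h with h | h
      · exact hyN h
      · have := h.1.1.2
        omega
    refine W1E.leaf _ N' y hyT hyN' z (hN'1 hz) hzy (fun X hTX hXN => ?_)
    have h1 := hno (insert y X) (hTX.trans (Set.subset_insert _ _)) (by
      rw [Set.disjoint_left]
      rintro x (rfl | hx) hxN
      · exact hyN' hxN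
      · exact Set.disjoint_left.1 hXN hx hxN)
    have h2 := hno (X \ {y}) (fun x hx => ⟨hTX hx, fun h => hyT (h ▸ hx)⟩)
      (Set.disjoint_of_subset_left Set.sdiff_subset hXN)
    exact ⟨fun h => absurd h h1, fun h => absurd h h2⟩
  refine check1_sound E _ (fun i => a g (ψ i)) ty true old t _ R AA hB ?_ ?_ _ _ ?_ ?_ ?_
    ⟨fun Y => Y ⊆ {w}, fun X hTX hXN => ?_⟩
  · intro i i' hi hi' h
    exact hinj i i' ((hR i).1 hi).1 ((hR i').1 hi').1 ((a g).injective h)
  · intro i i' hi hi' h1 h2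
    exact hEa g _ _ (hEold i ((hR i).1 hi).1 i' ((hR i').1 hi').1 h1 h2)
  · intro i hi
    obtain ⟨hin, hil⟩ := (hR i).1 hi
    have hl : lev (a g (ψ i)) < j := by rw [hlev]; exact hil
    constructor
    · rintro (h | h)
      · rw [h, hwl] at hl
        exact absurd hl (lt_irrefl _)
      · exact h
    · rintro (h | h)
      · have := hN2 _ h
        omega
      · exact h.1.2 i hin rfl
  · intro i hi hk
    obtain ⟨hin, hil⟩ := (hR i).1 hi
    have hk' : ¬ old (ty i) := by
      rcases hk with hk | hk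
      · exact hAA _ hk
      · exact hk
    have hl0 := hnew i hin hk'
    obtain ⟨v, h2, h3, h4⟩ := hEnew i hin hk'
    refine ⟨a g v, Or.inr ⟨⟨by rw [hlev]; omega, fun i hi h => ?_⟩, ?_⟩, hEa g _ _ h4⟩
    · exact h3 ⟨i, hi, ((a g).injective h).symm⟩
    · rintro (h | h)
      · rw [← h, hlev] at hwl
        omega
      · exact h
  · intro _
    refine ⟨y, z, ?_, ?_, ?_, Or.inl hz, hzy⟩
    · rintro (h | h)
      · exact hyw h
      · exact h
    · rintro (h | h)
      · exact hyN h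
      · have := h.1.1.2
        omega
    · intro i hi h
      have h2 : lev (a g (ψ i)) < j := by rw [hlev]; exact ((hR i).1 hi).2
      rw [h] at h2
      omega
  · have hwX : w ∈ X := hTX (Or.inl rfl)
    constructor
    · intro hSX
      obtain ⟨m', hm', hum, h⟩ := key X hwX
        (Set.disjoint_of_subset_right Set.subset_union_left hXN) hSX
      refine ⟨?_, m', List.mem_filter.2 ⟨hm', hum⟩, ?_⟩
      · rintro x ⟨hx, hxI⟩
        obtain ⟨hxl, i, hi, hn, hxe⟩ := h x hx
        by_cases hil : lev (ψ i) < j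
        · exact absurd ⟨i, (hR i).2 ⟨hn, hil⟩, hxe.symm⟩ hxI
        · by_cases hil2 : lev (ψ i) = j
          · have hiu : i = u :=
              hone m' hm' i u hi hum (by rw [hil2, hul]) (by omega)
            show x = w
            rw [hxe, hiu, hg]
          · exfalso
            rw [hxe, hlev] at hxl
            omega
      · intro i hi hiX
        obtain ⟨-, i2, hi2, hn2, hxe⟩ := h _ hiX
        have : i = i2 := hinj _ _ ((hR i).1 hi).1 hn2 ((a g).injective hxe)
        rw [this]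
        exact hi2
    · rintro ⟨hP, m, hm, h⟩
      obtain ⟨hm1, hm2⟩ := List.mem_filter.1 hm
      refine ⟨g, m, hm1, fun x hx => ?_⟩
      by_cases hxI : x ∈ Im (fun i => a g (ψ i)) R
      · obtain ⟨i, hi, rfl⟩ := hxI
        exact ⟨i, h i hi hx, rfl⟩
      · have : x = w := hP ⟨hx, hxI⟩
        rw [this]
        exact ⟨u, hm2, hg.symm⟩

end

end Pool.Agent.H393.EX
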